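import Pool.Agent.H692R2.USS.W1
import Pool.Agent.H692R2.USS.Code
import Pool.Agent.H692R2.USS.LRS
import Pool.Agent.H884R2.Sko.Algo

set_option autoImplicit false

/-!
# Universal Skolem set of density one: statements of the tasks (USS-PROJECT, helper684)

Definitions of `SplitAll`, `Generic`, `GoodPair`, `Good`, `E`, `Ann`, `BT`, `InvTot`, `GcdSum`, `MassK`,
`Mass`, `iSeq`, `NSeq`, `lev`, `S` are in `Pool.Agent.H692R2.USS.Defs` and `.Iface`.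
-/

namespace Pool.Agent.H684R3.USS

open Polynomial Finset Pool.Agent.H692R2.USS
open scoped Classical

/-! ## Part 1: number theory and density -/

/-- Task A: `∑_{2^r ≤ a < 2^(r+1)} 1/φ(a) ≤ C`. -/
def TaskA : Prop := InvTot

/-- Task B -/
def TaskB : Prop := BT → InvTot → GcdSum

/-- Task C: one block of primes catches almost all `n` (second moment method). -/
def TaskC : Prop := GcdSum → ∀ k : ℕ, 1 ≤ k → Mass k → Block k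

/-- Task D -/
def TaskD : Prop := ∀ k : ℕ, 1 ≤ k → NonGen k

/-- Task E -/
def TaskE : Prop := (∀ k : ℕ, 1 ≤ k → Block k) → (∀ k : ℕ, 1 ≤ k → NonGen k) → GoodDensity

/-- Task F: computability of `NSeq` and `S`. -/
def TaskF : Prop := GoodDensity → Computable NSeq ∧ ComputablePred (fun n : ℕ => n ∈ S)

/-- Task G: `S` has density one. -/
def TaskG : Prop := GoodDensity → Filter.Tendsto
  (fun N : ℕ => (((Finset.range N).filter (fun n => n ∈ S)).card : ℝ) / N) Filter.atTop (nhds 1)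

/-! ## Part 2: no zeros at good `n` -/

/-- Task H: for a good pair `(p, b)` at `n`, `∑ n^j v_j(n) ≡ 0 mod p` implies `v_j(b) = 0`. -/
def TaskH : Prop := ∀ (g s t : ℤ[X]) (rr : ℤ) (m k p n b : ℕ) (v : ℕ → ℕ → ℤ),
  g.Monic → g.natDegree ≤ k → (∀ i, |g.coeff i| ≤ k) → s * g + t * (X * derivative g) = C rr →
  rr ≠ 0 → |rr| ≤ k → 1 ≤ k → m ≤ k → (∀ j < m, Ann g (v j)) →
  (∀ j < m, ∀ b, |v j b| < 2 ^ (k * (b + 1))) → GoodPair k p n b →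
  (p : ℤ) ∣ ∑ j ∈ Finset.range m, (n : ℤ) ^ j * v j n → ∀ j < m, v j b = 0

/-- Task I: Strassmann's theorem in integers. -/
def TaskI : Prop := ∀ (h : ℕ → ℤ) (p K : ℕ), p.Prime → 3 ≤ p →
  (∀ i, ∃ c : ℤ, ∑ a ∈ Finset.range (i + 1), (-1) ^ (i - a) * (i.choose a : ℤ) * h a = (p : ℤ) ^ i * c) →
  ∀ Z : Finset ℕ, K ≤ Z.card → (∀ l ∈ Z, h l = 0) → ∀ l, (p : ℤ) ^ (K - K / 2) ∣ h l

/-- the basic certificate data -/
def Base (g s t : ℤ[X]) (rr : ℤ) (m p0 T : ℕ) (q w : ℤ[X]) (v : ℕ → ℕ → ℤ) (k : ℕ) : Prop :=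
  g.Monic ∧ g.natDegree ≤ k ∧ (∀ i, |g.coeff i| ≤ k) ∧
  s * g + t * (X * derivative g) = C rr ∧ rr ≠ 0 ∧ |rr| ≤ k ∧ 1 ≤ k ∧ m ≤ k ∧
  (∀ j < m, Ann g (v j)) ∧ (∀ j < m, ∀ b, |v j b| < 2 ^ (k * (b + 1))) ∧
  p0.Prime ∧ 3 ≤ p0 ∧ 1 ≤ T ∧ T ≤ k ∧ X ^ T - 1 = g * q + C (p0 : ℤ) * w

/-- semantic certificate of level `k` for the absence of zeros of `u` at good `n`. -/
def CertN (u : ℕ → ℤ) (k : ℕ) : Prop :=
  ∃ (g s t : ℤ[X]) (rr : ℤ) (m D p0 T : ℕ) (q w : ℤ[X]) (v : ℕ → ℕ → ℤ),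
    Base g s t rr m p0 T q w v k ∧ 1 ≤ D ∧
    (∀ n : ℕ, (D : ℤ) * u n = ∑ j ∈ Finset.range m, (n : ℤ) ^ j * v j n) ∧
    ∀ r < T, ∃ j < m, ∃ l, v j (r + T * l) ≠ 0 ∧ |v j (r + T * l)| < 3 ^ (k / 2)

/-- Task J: glue of H and I. -/
def TaskJ : Prop := TaskH → TaskI → ∀ (u : ℕ → ℤ) (k i n : ℕ), CertN u k → Good i k n → u n ≠ 0

/-! ## Part 3: existence of certificates -/

/-- Task K: decomposition of a recurrence sequence. -/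
def TaskK : Prop := ∀ (g s t : ℤ[X]) (rr : ℤ) (m : ℕ) (u : ℕ → ℤ),
  s * g + t * (X * derivative g) = C rr → rr ≠ 0 → Ann (g ^ m) u →
  ∃ (D : ℕ) (v : ℕ → ℕ → ℤ), 1 ≤ D ∧ (∀ j < m, Ann g (v j)) ∧
    ∀ n : ℕ, (D : ℤ) * u n = ∑ j ∈ Finset.range m, (n : ℤ) ^ j * v j n

/-- Task K2: converse of Task K, for the verification of codes. -/
def TaskK2 : Prop := ∀ (g : ℤ[X]) (m : ℕ) (v : ℕ → ℕ → ℤ), (∀ j < m, Ann g (v j)) →
  Ann (g ^ m) (fun n => ∑ j ∈ Finset.range m, (n : ℤ) ^ j * v j n)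

/-- Task L: squarefree part. -/
def TaskL : Prop := ∀ f : ℤ[X], f.Monic → 1 ≤ f.natDegree → f.coeff 0 ≠ 0 →
  ∃ (g s t : ℤ[X]) (rr : ℤ) (m : ℕ), g.Monic ∧ 1 ≤ g.natDegree ∧
    s * g + t * (X * derivative g) = C rr ∧ rr ≠ 0 ∧ f ∣ g ^ m

/-- Task M: period modulo a prime. -/
def TaskM : Prop := ∀ g : ℤ[X], g.Monic → g.coeff 0 ≠ 0 →
  ∃ (p0 T : ℕ) (q w : ℤ[X]), p0.Prime ∧ 3 ≤ p0 ∧ 1 ≤ T ∧ X ^ T - 1 = g * q + C (p0 : ℤ) * w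

/-! ## Part 4: codes -/

/-- value at `x` of the polynomial with (coded) coefficient list `L` -/
def evL (L : List (ℕ × ℕ)) (x : ℕ) : ℕ × ℕ :=
  zsum (fun i => zm (L.getD i (0, 0)) (x ^ i, 0)) L.length

/-- value at `x` of `PG G` -/
def evG (G : List (ℕ × ℕ)) (x : ℕ) : ℕ × ℕ := za (x ^ G.length, 0) (evL G x)

/-- value at `x` of `X * derivative (PG G)` -/
def evd (G : List (ℕ × ℕ)) (x : ℕ) : ℕ × ℕ :=
  za (G.length * x ^ G.length, 0)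
    (zsum (fun i => zm (G.getD i (0, 0)) (i * x ^ i, 0)) G.length)

/-- equality of coded integers -/
def zeq (a b : ℕ × ℕ) : Prop := a.1 + b.2 = b.1 + a.2

/-- coded integer of absolute value less than `c` -/
def zlt (a : ℕ × ℕ) (c : ℕ) : Prop := a.1 < a.2 + c ∧ a.2 < a.1 + c

/-- the codes: `((G, s, t), (q, w), rr, A, (D, p0, T))` -/
abbrev Cod : Type := (List (ℕ × ℕ) × List (ℕ × ℕ) × List (ℕ × ℕ)) ×
  (List (ℕ × ℕ) × List (ℕ × ℕ)) × (ℕ × ℕ) × List (List (ℕ × ℕ)) × (ℕ × ℕ × ℕ)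

/-- the check of a code at level `k` for the recurrence data `p`. -/
def Chk (p : List (ℕ × ℕ) × List (ℕ × ℕ)) (k : ℕ) (G s t q w : List (ℕ × ℕ)) (rr : ℕ × ℕ)
    (A : List (List (ℕ × ℕ))) (D p0 T : ℕ) : Prop :=
  (1 ≤ G.length ∧ G.length ≤ k ∧ (∀ i < G.length, zlt (G.getD i (0, 0)) (k + 1)) ∧
    1 ≤ k ∧ k * k + 1 ≤ 2 ^ k ∧ rr.1 ≠ rr.2 ∧ zlt rr (k + 1)) ∧
  (∀ x < s.length + t.length + G.length + 1,
    zeq (za (zm (evL s x) (evG G x)) (zm (evL t x) (evd G x))) rr) ∧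
  (A.length ≤ k ∧ ∀ j < A.length, (A.getD j []).length = G.length ∧
    ∀ i < G.length, zlt ((A.getD j []).getD i (0, 0)) (2 ^ k)) ∧
  (1 ≤ D ∧ ∀ n < p.1.length + A.length * G.length,
    zeq (zm (D, 0) (run (Pool.Agent.H884R2.Sko.Fq p.1) p.2 n))
      (zsum (fun j => zm (n ^ j, 0) (run G (A.getD j []) n)) A.length)) ∧
  (p0.Prime ∧ 3 ≤ p0 ∧ 1 ≤ T ∧ T ≤ k ∧ ∀ x < T + G.length + q.length + w.length + 1,
    zeq (x ^ T, 0) (za (1, 0) (za (zm (evG G x) (evL q x)) (zm (p0, 0) (evL w x))))) ∧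
  (∀ r < T, ∃ y : ℕ × ℕ, y.1 < A.length ∧
    (run G (A.getD y.1 []) (r + T * y.2)).1 ≠ (run G (A.getD y.1 []) (r + T * y.2)).2 ∧
    zlt (run G (A.getD y.1 []) (r + T * y.2)) (3 ^ (k / 2)))

/-- existence of a code -/
def CertC (p : List (ℕ × ℕ) × List (ℕ × ℕ)) (k : ℕ) : Prop :=
  ∃ c : Cod, Chk p k c.1.1 c.1.2.1 c.1.2.2 c.2.1.1 c.2.1.2 c.2.2.1 c.2.2.2.1
    c.2.2.2.2.1 c.2.2.2.2.2.1 c.2.2.2.2.2.2

/-- Task N: `CertC` is recursively enumerable. -/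
def TaskN : Prop :=
  REPred fun x : (List (ℕ × ℕ) × List (ℕ × ℕ)) × ℕ => CertC x.1 x.2

/-- Task O: soundness of codes. -/
def TaskO : Prop := TaskK2 → ∀ (p : List (ℕ × ℕ) × List (ℕ × ℕ)) (u : ℕ → ℤ) (k : ℕ), IsLRS p u →
  CertC p k → CertN u k

/-- Task P: completeness of codes. -/
def TaskP : Prop := ∀ (p : List (ℕ × ℕ) × List (ℕ × ℕ)) (u : ℕ → ℤ) (g s t : ℤ[X]) (rr : ℤ)
  (m D p0 T : ℕ) (q w : ℤ[X]) (v : ℕ → ℕ → ℤ), IsLRS p u → g.Monic → 1 ≤ g.natDegree →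
  s * g + t * (X * derivative g) = C rr → rr ≠ 0 → (∀ j < m, Ann g (v j)) → 1 ≤ D →
  (∀ n : ℕ, (D : ℤ) * u n = ∑ j ∈ Finset.range m, (n : ℤ) ^ j * v j n) →
  p0.Prime → 3 ≤ p0 → 1 ≤ T → X ^ T - 1 = g * q + C (p0 : ℤ) * w →
  (∀ r < T, ∃ j < m, ∃ l, v j (r + T * l) ≠ 0) → ∃ k, CertC p k

/-! ## Final statement -/

def Final : Prop := ∃ S : Set ℕ,
  ComputablePred (fun n : ℕ => n ∈ S) ∧
  Filter.Tendsto (fun N : ℕ => (((Finset.range N).filter (fun n => n ∈ S)).card : ℝ) / N)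
    Filter.atTop (nhds 1) ∧
  ComputablePred (fun p : List (ℕ × ℕ) × List (ℕ × ℕ) => ∃ u, IsLRS p u ∧ ∃ n ∈ S, u n = 0)

end Pool.Agent.H684R3.USS
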