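import Pool.Agent.H684R3.USS.Stmts
import Pool.Agent.H692R2.USS.SplitField

set_option autoImplicit false

/-!
# Universal Skolem set of density one: assembly
-/

namespace Pool.Agent.H684R3.USS

open Polynomial Finset Pool.Agent.H692R2.USS Pool.Agent.Helper446
open Pool.Agent.H884R2.Sko (Fq Fq_length Fq_getD getLast_iff' isLRS_run')
open scoped Classical

theorem mass_of (h : ∀ (K : Type) [Field K] [NumberField K], MassK K) (k : ℕ) : Mass k := by
  obtain ⟨K, i1, i2, hK⟩ := splitField k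
  obtain ⟨c, C, hc, h⟩ := @h K i1 i2
  refine ⟨c, C, hc, fun L hL => (h L hL).trans ?_⟩
  refine Finset.sum_le_sum_of_subset_of_nonneg ?_ (fun p _ _ => by positivity)
  intro p hp
  rw [Finset.mem_filter] at hp ⊢
  exact ⟨hp.1, hp.2.1, hK p hp.2.1 hp.2.2⟩

theorem CertN.mono {u : ℕ → ℤ} {k k' : ℕ} (h : CertN u k) (hk : k ≤ k') : CertN u k' := by
  obtain ⟨g, s, t, rr, m, D, p0, T, q, w, v, hB, hD, hu, hr⟩ := h
  obtain ⟨h1, h2, h3, h4, h5, h6, h7, h8, h9, h10, h11, h12, h13, h14, h15⟩ := hB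
  have hk' : (k : ℤ) ≤ k' := by exact_mod_cast hk
  refine ⟨g, s, t, rr, m, D, p0, T, q, w, v, ⟨h1, h2.trans hk, fun i => (h3 i).trans hk', h4, h5,
    h6.trans hk', h7.trans hk, h8.trans hk, h9, fun j hj b => (h10 j hj b).trans_le ?_, h11, h12,
    h13, h14.trans hk, h15⟩, hD, hu, fun r hr' => ?_⟩
  · exact pow_le_pow_right₀ (by norm_num) (Nat.mul_le_mul_right _ hk)
  · obtain ⟨j, hj, l, hl, hl'⟩ := hr r hr'
    exact ⟨j, hj, l, hl, hl'.trans_le (pow_le_pow_right₀ (by norm_num) (Nat.div_le_div_right hk))⟩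

theorem NSeq_lt (k : ℕ) : NSeq k < NSeq (k + 1) := by
  show NSeq k < (k + 1) * (NSeq k + (iSeq k).factorial + (iSeq (k + 1)).factorial + 1)
  have : NSeq k + (iSeq k).factorial + (iSeq (k + 1)).factorial + 1 ≤
      (k + 1) * (NSeq k + (iSeq k).factorial + (iSeq (k + 1)).factorial + 1) :=
    Nat.le_mul_of_pos_left _ (Nat.succ_pos k)
  omega

theorem NSeq_mono : StrictMono NSeq := strictMono_nat_of_lt_succ NSeq_lt

theorem le_lev {k n : ℕ} (h : NSeq k ≤ n) : k ≤ lev n :=
  Nat.le_findGreatest ((NSeq_mono.le_apply).trans h) h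

/-- the set meets every arithmetic progression -/
theorem meets (hG : Filter.Tendsto
    (fun N : ℕ => (((Finset.range N).filter (fun n => n ∈ S)).card : ℝ) / N) Filter.atTop (nhds 1))
    (r T : ℕ) (hT : 1 ≤ T) : ∃ l, r + T * l ∈ S := by
  by_contra hcon
  push Not at hcon
  have hT' : (0 : ℝ) < T := by exact_mod_cast hT
  have h1 : ∀ᶠ N : ℕ in Filter.atTop,
      1 - 1 / (4 * T : ℝ) < (((Finset.range N).filter (fun n => n ∈ S)).card : ℝ) / N := by
    apply hG.eventually (lt_mem_nhds _)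
    have : (0 : ℝ) < 1 / (4 * T) := by positivity
    linarith
  obtain ⟨N0, hN0⟩ := Filter.eventually_atTop.1 h1
  -- take `N = r + T * L` with `L` large
  obtain ⟨L, hL⟩ : ∃ L : ℕ, N0 ≤ L ∧ r ≤ L ∧ 1 ≤ L := ⟨max N0 (max r 1), by simp⟩
  set N := r + T * L with hN
  have hNL : L ≤ T * L := Nat.le_mul_of_pos_left _ hT
  have h2 := hN0 N (by omega)
  have hN1 : 1 ≤ N := by omega
  have hcard : ((Finset.range N).filter (fun n => n ∈ S)).card + L ≤ N := by
    have himg : ((Finset.range L).image (fun l => r + T * l)).card = L := by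
      rw [Finset.card_image_of_injective, Finset.card_range]
      intro a b hab
      have : T * a = T * b := by simpa using hab
      exact Nat.eq_of_mul_eq_mul_left (by omega) this
    have hdisj : Disjoint ((Finset.range N).filter (fun n => n ∈ S))
        ((Finset.range L).image (fun l => r + T * l)) := by
      rw [Finset.disjoint_left]
      intro n hn hn'
      rw [Finset.mem_image] at hn'
      obtain ⟨l, _, rfl⟩ := hn'
      exact hcon l (Finset.mem_filter.1 hn).2
    have hsub : ((Finset.range N).filter (fun n => n ∈ S)) ∪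
        ((Finset.range L).image (fun l => r + T * l)) ⊆ Finset.range N := by
      intro n hn
      rw [Finset.mem_union] at hn
      rcases hn with hn | hn
      · exact (Finset.mem_filter.1 hn).1
      · rw [Finset.mem_image] at hn
        obtain ⟨l, hl, rfl⟩ := hn
        rw [Finset.mem_range] at hl ⊢
        have : T * l < T * L := Nat.mul_lt_mul_of_pos_left hl (by omega)
        omega
    have := Finset.card_le_card hsub
    rw [Finset.card_union_of_disjoint hdisj, himg, Finset.card_range] at this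
    exact this
  have hcard' : (((Finset.range N).filter (fun n => n ∈ S)).card : ℝ) + L ≤ N := by
    exact_mod_cast hcard
  have hNpos : (0 : ℝ) < N := by exact_mod_cast hN1
  rw [lt_div_iff₀ hNpos] at h2
  have hN2 : (N : ℝ) ≤ 2 * T * L := by
    have : N ≤ 2 * T * L := by
      have : r ≤ T * L := by omega
      calc N = r + T * L := hN
        _ ≤ T * L + T * L := by omega
        _ = 2 * T * L := by ring
    exact_mod_cast this
  have h3 : (N : ℝ) / (4 * T) ≤ L / 2 := by
    rw [div_le_div_iff₀ (by positivity) (by norm_num)]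
    nlinarith
  have h4 : (1 - 1 / (4 * T : ℝ)) * N = N - N / (4 * T) := by ring
  rw [h4] at h2
  have hL1 : (1 : ℝ) ≤ L := by exact_mod_cast hL.2.2
  linarith

/-- validity of the data -/
def Val (p : List (ℕ × ℕ) × List (ℕ × ℕ)) : Prop :=
  p.1.length = p.2.length ∧ 1 ≤ p.1.length ∧
    (p.1.getD (p.1.length - 1) (0, 0)).1 ≠ (p.1.getD (p.1.length - 1) (0, 0)).2

theorem isLRS_of_val {p : List (ℕ × ℕ) × List (ℕ × ℕ)} (h : Val p) :
    IsLRS p (fun n => iv (run (Fq p.1) p.2 n)) := by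
  obtain ⟨h1, h2, h3⟩ := h
  refine ⟨h1, ?_, ?_, ?_⟩
  · obtain ⟨c, a⟩ := p
    simp only at h1 h2 h3 ⊢
    rcases c.eq_nil_or_concat with rfl | ⟨l, x, rfl⟩
    · simp at h2
    · refine ⟨x, by simp, ?_⟩
      simp at h3
      exact_mod_cast h3
  · intro i hi
    show iv (run (Fq p.1) p.2 i) = _
    rw [run_init hi]
    rfl
  · intro n
    have hann := run_ann (G := Fq p.1) (a := p.2) (by omega) (by rw [Fq_length, h1])
    rw [ann_PG] at hann
    have h4 := hann n
    rw [Fq_length] at h4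
    simp only
    rw [h4, ← Finset.sum_neg_distrib, ← Finset.sum_range_reflect]
    refine Finset.sum_congr rfl fun i hi => ?_
    rw [Finset.mem_range] at hi
    rw [Fq_getD (by omega), iv_zn]
    rw [show p.1.length - 1 - (p.1.length - 1 - i) = i by omega]
    rw [show n + (p.1.length - 1 - i) = n + p.1.length - 1 - i by omega]
    simp only [iv]
    ring

theorem val_of_isLRS {p : List (ℕ × ℕ) × List (ℕ × ℕ)} {u : ℕ → ℤ} (h : IsLRS p u) : Val p := by
  obtain ⟨h1, h2, h3, h4⟩ := h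
  refine ⟨h1, getLast_iff' _ h2, ?_⟩
  obtain ⟨c, a⟩ := p
  simp only at h1 h2 h3 ⊢
  obtain ⟨q, hq, hq'⟩ := h2
  rcases c.eq_nil_or_concat with rfl | ⟨l, x, rfl⟩
  · simp at hq
  · simp at hq
    subst hq
    simp
    exact_mod_cast hq'

theorem iv_eq_zero (z : ℕ × ℕ) : iv z = 0 ↔ z.1 = z.2 := by
  unfold iv; omega

theorem coeff_zero_ne {p : List (ℕ × ℕ) × List (ℕ × ℕ)} (h : Val p) :
    (PG (Fq p.1)).coeff 0 ≠ 0 := by
  obtain ⟨h1, h2, h3⟩ := h
  rw [PG_coeff, if_pos (by rw [Fq_length]; omega), Fq_getD (by omega), iv_zn]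
  rw [neg_ne_zero, Ne, iv_eq_zero]
  simpa using h3

theorem ann_of_isLRS {p : List (ℕ × ℕ) × List (ℕ × ℕ)} {u : ℕ → ℤ} (h : IsLRS p u) :
    Ann (PG (Fq p.1)) u := by
  have h1 := run_ann (G := Fq p.1) (a := p.2)
    (by have := (val_of_isLRS h); obtain ⟨a, b, _⟩ := this; omega)
    (by rw [Fq_length, (val_of_isLRS h).1])
  have : (fun n => iv (run (Fq p.1) p.2 n)) = u := funext fun n => isLRS_run' h n
  rwa [this] at h1

theorem decS (hG : TaskG) (hH : TaskH) (hI : TaskI) (hJ : TaskJ) (hK : TaskK) (hK2 : TaskK2)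
    (hL : TaskL) (hM : TaskM) (hN : TaskN) (hO : TaskO) (hP : TaskP) (hgood : GoodDensity)
    (cN : Computable NSeq) (cS : ComputablePred (fun n : ℕ => n ∈ S)) :
    ComputablePred (fun p : List (ℕ × ℕ) × List (ℕ × ℕ) => ∃ u, IsLRS p u ∧ ∃ n ∈ S, u n = 0) := by
  have hdens := hG hgood
  -- the predicate in terms of `run`
  have key : ∀ p : List (ℕ × ℕ) × List (ℕ × ℕ), (∃ u, IsLRS p u ∧ ∃ n ∈ S, u n = 0) ↔
      (Val p ∧ ∃ n, n ∈ S ∧ (run (Fq p.1) p.2 n).1 = (run (Fq p.1) p.2 n).2) := by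
    intro p
    constructor
    · rintro ⟨u, hu, n, hn, h0⟩
      refine ⟨val_of_isLRS hu, n, hn, ?_⟩
      rw [← iv_eq_zero, isLRS_run' hu n, h0]
    · rintro ⟨hv, n, hn, h0⟩
      exact ⟨_, isLRS_of_val hv, n, hn, (iv_eq_zero _).2 h0⟩
  have key2 : ∀ p : List (ℕ × ℕ) × List (ℕ × ℕ), ¬ (∃ u, IsLRS p u ∧ ∃ n ∈ S, u n = 0) ↔
      (¬ Val p ∨ ∃ k, CertC p k ∧ ∀ n < NSeq k, n ∉ S ∨
        (run (Fq p.1) p.2 n).1 ≠ (run (Fq p.1) p.2 n).2) := by
    intro p
    rw [key]
    constructor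
    · intro h
      by_cases hv : Val p
      · right
        push Not at h
        have h' := h hv
        -- the decomposition
        have hu := isLRS_of_val hv
        set u : ℕ → ℤ := fun n => iv (run (Fq p.1) p.2 n) with hudef
        obtain ⟨g, s, t, rr, m, hg, hg1, hid, hrr, hdvd⟩ := hL (PG (Fq p.1)) (PG_monic _)
          (by rw [PG_natDegree, Fq_length]; exact hv.2.1) (coeff_zero_ne hv)
        obtain ⟨D, v, hD1, hv1, hDu⟩ := hK g s t rr m u hid hrr ((ann_of_isLRS hu).of_dvd hdvd)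
        have hg0 : g.coeff 0 ≠ 0 := by
          intro h0
          apply hrr
          have := congrArg (fun f : ℤ[X] => f.coeff 0) hid
          simp only [coeff_add, mul_coeff_zero, coeff_C_zero, h0, coeff_X_zero] at this
          rw [← this]; ring
        obtain ⟨p0, T, q, w, hp0, hp3, hT, hXT⟩ := hM g hg hg0
        have hcls : ∀ r < T, ∃ j < m, ∃ l, v j (r + T * l) ≠ 0 := by
          intro r hr
          by_contra hcon
          push Not at hcon
          obtain ⟨l, hl⟩ := meets hdens r T hT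
          refine h' _ hl ?_
          rw [← iv_eq_zero]
          have h5 := hDu (r + T * l)
          rw [Finset.sum_eq_zero (fun j hj => by
            rw [hcon j (Finset.mem_range.1 hj) l, mul_zero])] at h5
          rcases mul_eq_zero.1 h5 with h6 | h6
          · have : (1 : ℤ) ≤ D := by exact_mod_cast hD1
            omega
          · exact h6
        obtain ⟨k, hk⟩ := hP p u g s t rr m D p0 T q w v hu hg hg1 hid hrr hv1 hD1 hDu hp0 hp3 hT
          hXT hcls
        refine ⟨k, hk, fun n _ => ?_⟩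
        by_cases hn : n ∈ S
        · exact Or.inr (h' n hn)
        · exact Or.inl hn
      · exact Or.inl hv
    · rintro (h | ⟨k, hk, hn⟩) ⟨hv, n, hnS, h0⟩
      · exact h hv
      · by_cases hlt : n < NSeq k
        · rcases hn n hlt with h1 | h1
          · exact h1 hnS
          · exact h1 h0
        · push Not at hlt
          have hu := isLRS_of_val hv
          have hc := (hO hK2 p _ k hu hk).mono (le_lev hlt)
          exact hJ hH hI _ _ _ n hc hnS ((iv_eq_zero _).2 h0)
  have cNS : ComputablePred (fun n : ℕ => n ∉ S) := by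
    obtain ⟨f, hf, hf'⟩ := ComputablePred.computable_iff.1 cS
    refine ComputablePred.computable_iff.2 ⟨fun n => !(f n), by fun_prop, ?_⟩
    funext n
    have := congrFun hf' n
    simp only [this]
    simp
  have cVal : REPred (fun p : List (ℕ × ℕ) × List (ℕ × ℕ) => Val p) := by
    unfold Val
    refine RE.and (RE.eq (by fun_prop) (by fun_prop)) (RE.and ?_ (RE.ne (by fun_prop) (by fun_prop)))
    exact (RE.cp_le (by fun_prop) (by fun_prop)).to_re
  have cnVal : REPred (fun p : List (ℕ × ℕ) × List (ℕ × ℕ) => ¬ Val p) := by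
    have : REPred (fun p : List (ℕ × ℕ) × List (ℕ × ℕ) => p.1.length ≠ p.2.length ∨ (p.1.length = 0 ∨
        (p.1.getD (p.1.length - 1) (0, 0)).1 = (p.1.getD (p.1.length - 1) (0, 0)).2)) :=
      RE.or (RE.ne (by fun_prop) (by fun_prop)) (RE.or (RE.eq (by fun_prop) (by fun_prop))
        (RE.eq (by fun_prop) (by fun_prop)))
    refine this.of_eq fun p => ?_
    unfold Val
    constructor
    · rintro (h | h | h) ⟨h1, h2, h3⟩
      · exact h h1
      · omega
      · exact h3 h
    · intro h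
      by_contra hcon
      push Not at hcon
      exact h ⟨hcon.1, by omega, hcon.2.2⟩
  refine RE.cp_of_re ?_ ?_
  · refine (show REPred (fun p : List (ℕ × ℕ) × List (ℕ × ℕ) => Val p ∧ ∃ n, n ∈ S ∧
      (run (Fq p.1) p.2 n).1 = (run (Fq p.1) p.2 n).2) from ?_).of_eq fun p => (key p).symm
    refine RE.and cVal ?_
    refine RE.ex (p := fun (p : List (ℕ × ℕ) × List (ℕ × ℕ)) (n : ℕ) => n ∈ S ∧
      (run (Fq p.1) p.2 n).1 = (run (Fq p.1) p.2 n).2) ?_
    refine RE.and ?_ (RE.eq (by fun_prop) (by fun_prop))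
    exact (RE.cp_comp (p := fun n => n ∈ S) cS (f := fun x : (List (ℕ × ℕ) × List (ℕ × ℕ)) × ℕ => x.2) (by fun_prop)).to_re
  · refine (show REPred (fun p : List (ℕ × ℕ) × List (ℕ × ℕ) => ¬ Val p ∨ ∃ k, CertC p k ∧
      ∀ n < NSeq k, n ∉ S ∨ (run (Fq p.1) p.2 n).1 ≠ (run (Fq p.1) p.2 n).2) from ?_).of_eq
        fun p => (key2 p).symm
    refine RE.or cnVal ?_
    refine RE.ex (p := fun (p : List (ℕ × ℕ) × List (ℕ × ℕ)) (k : ℕ) => CertC p k ∧
      ∀ n < NSeq k, n ∉ S ∨ (run (Fq p.1) p.2 n).1 ≠ (run (Fq p.1) p.2 n).2) ?_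
    refine RE.and hN ?_
    refine RE.all_lt (p := fun (x : (List (ℕ × ℕ) × List (ℕ × ℕ)) × ℕ) (n : ℕ) =>
      n ∉ S ∨ (run (Fq x.1.1) x.1.2 n).1 ≠ (run (Fq x.1.1) x.1.2 n).2) ?_ (cN.comp (by fun_prop))
    refine RE.or ?_ (RE.ne (by fun_prop) (by fun_prop))
    exact (RE.cp_comp (p := fun n => n ∉ S) cNS
      (f := fun x : ((List (ℕ × ℕ) × List (ℕ × ℕ)) × ℕ) × ℕ => x.2) (by fun_prop)).to_re

theorem final (hA : TaskA) (hB : TaskB) (hC : TaskC) (hD : TaskD) (hE : TaskE) (hF : TaskF)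
    (hG : TaskG) (hH : TaskH) (hI : TaskI) (hJ : TaskJ) (hK : TaskK) (hK2 : TaskK2) (hL : TaskL)
    (hM : TaskM) (hN : TaskN) (hO : TaskO) (hP : TaskP) (hbt : BT)
    (hmass : ∀ (K : Type) [Field K] [NumberField K], MassK K) : Final := by
  have hgood : GoodDensity :=
    hE (fun k hk => hC (hB hbt hA) k hk (mass_of hmass k)) hD
  obtain ⟨cN, cS⟩ := hF hgood
  exact ⟨S, cS, hG hgood, decS hG hH hI hJ hK hK2 hL hM hN hO hP hgood cN cS⟩

end Pool.Agent.H684R3.USS
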