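import Pool.Agent.H684R3.USS.Stmts2
import Pool.Agent.H684R3.USS.Asm

set_option autoImplicit false

/-!
# Universal Skolem set of density one: assembly, second part
-/

namespace Pool.Agent.H684R3.USS

open Polynomial Finset Pool.Agent.H692R2.USS Pool.Agent.Helper446
open Pool.Agent.H884R2.Sko (Fq Fq_length Fq_getD getLast_iff' isLRS_run')
open scoped Classical

theorem CertN2.mono {u : ℕ → ℤ} {k k' : ℕ} (h : CertN2 u k) (hk : k ≤ k') : CertN2 u k' := by
  obtain ⟨g, s, t, rr, m, D, p0, T, q, w, v, hB, hD, hu, hr⟩ := h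
  obtain ⟨h1, h2, h3, h4, h5, h6, h7, h8, h9, h10, h11, h12, h13, h14, h15⟩ := hB
  have hk' : (k : ℤ) ≤ k' := by exact_mod_cast hk
  refine ⟨g, s, t, rr, m, D, p0, T, q, w, v, ⟨h1, h2.trans hk, fun i => (h3 i).trans hk', h4, h5,
    h6.trans hk', h7.trans hk, h8.trans hk, h9, fun j hj b => (h10 j hj b).trans_le ?_, h11, h12,
    h13, h14.trans hk, h15⟩, hD, hu, fun r hr' => ?_⟩
  · exact pow_le_pow_right₀ (by norm_num) (Nat.mul_le_mul_right _ hk)
  · rcases hr r hr' with h | ⟨j, hj, l, hl, hl'⟩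
    · exact Or.inl h
    · exact Or.inr ⟨j, hj, l, hl,
        hl'.trans_le (pow_le_pow_right₀ (by norm_num) (Nat.div_le_div_right hk))⟩

theorem cVal : REPred (fun p : List (ℕ × ℕ) × List (ℕ × ℕ) => Val p) := by
  unfold Val
  refine RE.and (RE.eq (by fun_prop) (by fun_prop)) (RE.and ?_ (RE.ne (by fun_prop) (by fun_prop)))
  exact (RE.cp_le (by fun_prop) (by fun_prop)).to_re

theorem cnVal : REPred (fun p : List (ℕ × ℕ) × List (ℕ × ℕ) => ¬ Val p) := by
  have : REPred (fun p : List (ℕ × ℕ) × List (ℕ × ℕ) => p.1.length ≠ p.2.length ∨ (p.1.length = 0 ∨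
      (p.1.getD (p.1.length - 1) (0, 0)).1 = (p.1.getD (p.1.length - 1) (0, 0)).2)) :=
    RE.or (RE.ne (by fun_prop) (by fun_prop)) (RE.or (RE.eq (by fun_prop) (by fun_prop))
      (RE.eq (by fun_prop) (by fun_prop)))
  refine this.of_eq fun p => ?_
  unfold Val
  constructor
  · rintro (h | h | h) ⟨h1, h2, h3⟩
    · exact h h1
    · omega
    · exact h3 h
  · intro h
    by_contra hcon
    push Not at hcon
    exact h ⟨hcon.1, by omega, hcon.2.2⟩

theorem exists_certC2 (hK : TaskK) (hL : TaskL) (hM : TaskM) (hP2 : TaskP2)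
    (p : List (ℕ × ℕ) × List (ℕ × ℕ)) (hv : Val p) : ∃ k, CertC2 p k := by
  have hu := isLRS_of_val hv
  set u : ℕ → ℤ := fun n => iv (run (Fq p.1) p.2 n) with hudef
  obtain ⟨g, s, t, rr, m, hg, hg1, hid, hrr, hdvd⟩ := hL (PG (Fq p.1)) (PG_monic _)
    (by rw [PG_natDegree, Fq_length]; exact hv.2.1) (coeff_zero_ne hv)
  obtain ⟨D, v, hD1, hv1, hDu⟩ := hK g s t rr m u hid hrr ((ann_of_isLRS hu).of_dvd hdvd)
  have hg0 : g.coeff 0 ≠ 0 := by
    intro h0
    apply hrr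
    have := congrArg (fun f : ℤ[X] => f.coeff 0) hid
    simp only [coeff_add, mul_coeff_zero, coeff_C_zero, h0, coeff_X_zero] at this
    rw [← this]; ring
  obtain ⟨p0, T, q, w, hp0, hp3, hT, hXT⟩ := hM g hg hg0
  refine hP2 p u g s t rr m D p0 T q w v hu hg hg1 hid hrr hv1 hD1 hDu hp0 hp3 hT hXT ?_
  intro r hr
  by_cases hc : ∃ j < m, ∃ l, v j (r + T * l) ≠ 0
  · exact Or.inr hc
  · left
    push Not at hc
    intro l
    have h5 := hDu (r + T * l)
    rw [Finset.sum_eq_zero (fun j hj => by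
      rw [hc j (Finset.mem_range.1 hj) l, mul_zero])] at h5
    rcases mul_eq_zero.1 h5 with h6 | h6
    · have : (1 : ℤ) ≤ D := by exact_mod_cast hD1
      omega
    · exact h6

theorem exists_bound (hF : Computable NSeq) (hH : TaskH) (hI : TaskI) (hJ2 : TaskJ2) (hK : TaskK)
    (hK2 : TaskK2) (hL : TaskL) (hM : TaskM) (hN2 : TaskN2) (hO2 : TaskO2) (hP2 : TaskP2)
    (hQ2 : TaskQ2) :
    ∃ B : List (ℕ × ℕ) × List (ℕ × ℕ) → ℕ, Computable B ∧ ∀ p u, IsLRS p u → ∀ n ∈ S, B p ≤ n →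
    u n = 0 → ∃ T, 1 ≤ T ∧ ∀ l, u (n % T + T * l) = 0 := by
  have hre : REPred fun x : (List (ℕ × ℕ) × List (ℕ × ℕ)) × ℕ => ¬ Val x.1 ∨ CertC2 x.1 x.2 := by
    refine RE.or ?_ hN2
    exact RE.comp (p := fun p : List (ℕ × ℕ) × List (ℕ × ℕ) => ¬ Val p) cnVal Computable.fst
  obtain ⟨A, hA, hdom, hs⟩ := RE.uniformize (r := fun p k => ¬ Val p ∨ CertC2 p k) hre
  have htot : ∀ p, (A p).Dom := by
    intro p
    rw [hdom]
    by_cases hv : Val p
    · obtain ⟨k, hk⟩ := exists_certC2 hK hL hM hP2 p hv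
      exact ⟨k, Or.inr hk⟩
    · exact ⟨0, Or.inl hv⟩
  have hc : Computable fun p => (A p).get (htot p) :=
    Partrec.of_eq hA fun p => (Part.some_get (htot p)).symm
  refine ⟨fun p => NSeq ((A p).get (htot p)), hF.comp hc, ?_⟩
  intro p u hu n hn hBn hun
  have h1 := hs p _ (Part.get_mem (htot p))
  rcases h1 with h1 | h1
  · exact absurd (val_of_isLRS hu) h1
  · exact hJ2 hH hI _ _ _ n ((hO2 hK2 hQ2 p u _ hu h1).mono (le_lev hBn)) hn hun

theorem final2 (hA : TaskA) (hB : TaskB) (hC : TaskC) (hD : TaskD) (hE : TaskE) (hF : TaskF)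
    (hG : TaskG) (hH : TaskH) (hI : TaskI) (hJ : TaskJ) (hK : TaskK) (hK2 : TaskK2) (hL : TaskL)
    (hM : TaskM) (hN : TaskN) (hO : TaskO) (hP : TaskP) (hbt : BT)
    (hmass : ∀ (K : Type) [Field K] [NumberField K], MassK K)
    (hJ2 : TaskJ2) (hN2 : TaskN2) (hO2 : TaskO2) (hP2 : TaskP2) (hQ2 : TaskQ2) : Final2 := by
  have hgood : GoodDensity :=
    hE (fun k hk => hC (hB hbt hA) k hk (mass_of hmass k)) hD
  obtain ⟨cN, cS⟩ := hF hgood
  exact ⟨S, cS, hG hgood, decS hG hH hI hJ hK hK2 hL hM hN hO hP hgood cN cS,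
    exists_bound cN hH hI hJ2 hK hK2 hL hM hN2 hO2 hP2 hQ2⟩

end Pool.Agent.H684R3.USS
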