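import Pool.Agent.H684R3.USS.Stmts

set_option autoImplicit false

/-!
# USS-PROJECT, Task B: the gcd sum over pairs of primes (helper133)
-/

namespace Pool.Agent.H684R3.USS.B

open Finset Pool.Agent.H692R2.USS
open scoped Classical

/-- dyadic block -/
def Bl (n : ℕ) : Finset ℕ := Finset.Ico (2 ^ n) (2 ^ (n + 1))

lemma mem_Bl {n a : ℕ} : a ∈ Bl n ↔ 2 ^ n ≤ a ∧ a < 2 ^ (n + 1) := by
  simp [Bl]

lemma one_le_of_mem {n a : ℕ} (h : a ∈ Bl n) : 1 ≤ a :=
  le_trans Nat.one_le_two_pow (mem_Bl.1 h).1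

lemma sum_dyadic (f : ℕ → ℝ) (L : ℕ) :
    ∑ a ∈ Finset.Ico 1 (2 ^ L), f a = ∑ r ∈ Finset.range L, ∑ a ∈ Bl r, f a := by
  induction L with
  | zero => simp
  | succ L ih =>
    rw [Finset.sum_range_succ, ← ih, Bl, Finset.sum_Ico_consecutive]
    · exact Nat.one_le_two_pow
    · exact Nat.pow_le_pow_right (by norm_num) (by omega)

lemma sum_inv_sqrt (n : ℕ) :
    ∑ l ∈ Finset.range n, (1 : ℝ) / Real.sqrt ((l : ℝ) + 1) ≤ 2 * Real.sqrt n := by
  induction n with
  | zero => simp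
  | succ n ih =>
    rw [Finset.sum_range_succ]
    have h1 : 0 < Real.sqrt ((n : ℝ) + 1) := Real.sqrt_pos.2 (by positivity)
    have h2 : Real.sqrt (n : ℝ) ≤ Real.sqrt ((n : ℝ) + 1) := Real.sqrt_le_sqrt (by linarith)
    have h3 : Real.sqrt ((n : ℝ) + 1) ^ 2 = (n : ℝ) + 1 := Real.sq_sqrt (by positivity)
    have h4 : Real.sqrt (n : ℝ) ^ 2 = (n : ℝ) := Real.sq_sqrt (by positivity)
    have h5 : 0 ≤ Real.sqrt (n : ℝ) := Real.sqrt_nonneg _
    have h6 : (1 : ℝ) / Real.sqrt ((n : ℝ) + 1) ≤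
        2 * (Real.sqrt ((n : ℝ) + 1) - Real.sqrt n) := by
      rw [div_le_iff₀ h1]
      nlinarith
    push_cast
    linarith

/-- the sum over a box -/
noncomputable def W (r l : ℕ) : ℝ :=
  ∑ q ∈ Bl r, ∑ k ∈ (Bl l).filter (fun k => (q * k + 1).Prime), (1 : ℝ) / ((q : ℝ) * k)

lemma W_nonneg (r l : ℕ) : 0 ≤ W r l :=
  Finset.sum_nonneg fun _ _ => Finset.sum_nonneg fun _ _ => by positivity

lemma W_symm (r l : ℕ) : W r l = W l r := by
  unfold W
  simp_rw [Finset.sum_filter]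
  rw [Finset.sum_comm]
  refine Finset.sum_congr rfl fun a _ => Finset.sum_congr rfl fun b _ => ?_
  rw [mul_comm b a, mul_comm (b : ℝ) (a : ℝ)]

lemma W_le {C C' : ℝ} (hC : 0 < C)
    (hBT : ∀ q l : ℕ, 1 ≤ q →
      (((Finset.Ico (2 ^ l) (2 ^ (l + 1))).filter (fun k => (q * k + 1).Prime)).card : ℝ) ≤
      C * ((q : ℝ) / (Nat.totient q)) * 2 ^ l / ((l : ℝ) + 1))
    (hT : ∀ r : ℕ, ∑ a ∈ Finset.Ico (2 ^ r) (2 ^ (r + 1)), (1 : ℝ) / (Nat.totient a) ≤ C')
    (r l : ℕ) : W r l ≤ 2 * C * C' / ((l : ℝ) + 1) := by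
  have h1 : ∀ q ∈ Bl r,
      ∑ k ∈ (Bl l).filter (fun k => (q * k + 1).Prime), (1 : ℝ) / ((q : ℝ) * k) ≤
      2 * C / ((l : ℝ) + 1) * (1 / (Nat.totient q)) := by
    intro q hq
    have hq1 : 1 ≤ q := one_le_of_mem hq
    obtain ⟨hq2, hq3⟩ := mem_Bl.1 hq
    have hφ : 0 < (Nat.totient q : ℝ) := by exact_mod_cast Nat.totient_pos.2 hq1
    have hqr : (0 : ℝ) < q := by exact_mod_cast hq1
    have h2 : ∑ k ∈ (Bl l).filter (fun k => (q * k + 1).Prime), (1 : ℝ) / ((q : ℝ) * k) ≤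
        ∑ k ∈ (Bl l).filter (fun k => (q * k + 1).Prime), (1 : ℝ) / ((q : ℝ) * 2 ^ l) := by
      refine Finset.sum_le_sum fun k hk => ?_
      have hk2 := (mem_Bl.1 (Finset.mem_filter.1 hk).1).1
      have hk3 : ((2 : ℝ) ^ l) ≤ k := by exact_mod_cast hk2
      exact one_div_le_one_div_of_le (by positivity) (by gcongr)
    refine h2.trans ?_
    rw [Finset.sum_const, nsmul_eq_mul]
    have h3 := hBT q l hq1
    have h4 : (((Bl l).filter (fun k => (q * k + 1).Prime)).card : ℝ) ≤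
      C * ((q : ℝ) / (Nat.totient q)) * 2 ^ l / ((l : ℝ) + 1) := h3
    calc (((Bl l).filter (fun k => (q * k + 1).Prime)).card : ℝ) * (1 / ((q : ℝ) * 2 ^ l))
        ≤ (C * ((q : ℝ) / (Nat.totient q)) * 2 ^ l / ((l : ℝ) + 1)) * (1 / ((q : ℝ) * 2 ^ l)) := by
          gcongr
      _ = C / ((l : ℝ) + 1) * (1 / (Nat.totient q)) := by field_simp
      _ ≤ 2 * C / ((l : ℝ) + 1) * (1 / (Nat.totient q)) := by
          gcongr
          linarith
  calc W r l ≤ ∑ q ∈ Bl r, 2 * C / ((l : ℝ) + 1) * (1 / (Nat.totient q)) :=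
        Finset.sum_le_sum h1
    _ = 2 * C / ((l : ℝ) + 1) * ∑ q ∈ Bl r, (1 : ℝ) / (Nat.totient q) := by
        rw [Finset.mul_sum]
    _ ≤ 2 * C / ((l : ℝ) + 1) * C' := by
        gcongr
        exact hT r
    _ = _ := by ring

lemma W_le_sqrt {D : ℝ} (hD : 0 ≤ D) (h : ∀ r l : ℕ, W r l ≤ D / ((l : ℝ) + 1)) (r l : ℕ) :
    W r l ≤ D / (Real.sqrt ((r : ℝ) + 1) * Real.sqrt ((l : ℝ) + 1)) := by
  have h1 := h r l
  have h2 := h l r
  rw [← W_symm] at h2
  have h0 := W_nonneg r l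
  have h3 : W r l * W r l ≤ (D / ((l : ℝ) + 1)) * (D / ((r : ℝ) + 1)) :=
    mul_le_mul h1 h2 h0 (by positivity)
  have h4 : (D / ((l : ℝ) + 1)) * (D / ((r : ℝ) + 1)) =
      (D / (Real.sqrt ((r : ℝ) + 1) * Real.sqrt ((l : ℝ) + 1))) ^ 2 := by
    rw [div_pow, mul_pow, Real.sq_sqrt (by positivity), Real.sq_sqrt (by positivity)]
    field_simp
  rw [h4, ← sq] at h3
  exact (pow_le_pow_iff_left₀ h0 (by positivity) (by norm_num)).1 h3

/-- primes in a residue class as values `q k + 1` -/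
lemma reidx (q N : ℕ) (hq : 1 ≤ q) (f : ℕ → ℝ) (hf : ∀ p, 0 ≤ f p) :
    ∑ p ∈ (Finset.range N).filter (fun p => p.Prime ∧ q ∣ p - 1), f p ≤
    ∑ k ∈ (Finset.Ico 1 N).filter (fun k => q * k + 1 < N ∧ (q * k + 1).Prime), f (q * k + 1) := by
  have hinj : Set.InjOn (fun k => q * k + 1)
      ((Finset.Ico 1 N).filter (fun k => q * k + 1 < N ∧ (q * k + 1).Prime) : Finset ℕ) := by
    intro a _ b _ hab
    simp only at hab
    have : q * a = q * b := by omega
    exact Nat.eq_of_mul_eq_mul_left hq this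
  rw [← Finset.sum_image (f := f) (g := fun k => q * k + 1) hinj]
  refine Finset.sum_le_sum_of_subset_of_nonneg ?_ fun p _ _ => hf p
  intro p hp
  rw [Finset.mem_filter, Finset.mem_range] at hp
  obtain ⟨hpN, hpp, k, hk⟩ := hp
  have hp2 := hpp.two_le
  have hkp : q * k + 1 = p := by omega
  rw [Finset.mem_image]
  refine ⟨k, ?_, hkp⟩
  rw [Finset.mem_filter, Finset.mem_Ico]
  have hk0 : 1 ≤ k := by
    rcases Nat.eq_zero_or_pos k with h | h
    · subst h
      simp at hk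
      omega
    · exact h
  refine ⟨⟨hk0, ?_⟩, by omega, by rw [hkp]; exact hpp⟩
  have : k ≤ q * k := Nat.le_mul_of_pos_left k hq
  omega

lemma gcd_le (L p p' : ℕ) (hp : p.Prime) (hpp' : p < p') (hp' : p' < 2 ^ L) :
    ((Nat.gcd (p - 1) (p' - 1) : ℕ) : ℝ) ≤
    ∑ q ∈ Finset.Ico 1 (2 ^ L), if q ∣ p - 1 ∧ q ∣ p' - 1 then (Nat.totient q : ℝ) else 0 := by
  have hp2 := hp.two_le
  have hg : 0 < Nat.gcd (p - 1) (p' - 1) := Nat.gcd_pos_of_pos_left _ (by omega)
  have h1 := Nat.sum_totient (Nat.gcd (p - 1) (p' - 1))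
  rw [← Finset.sum_filter]
  calc ((Nat.gcd (p - 1) (p' - 1) : ℕ) : ℝ)
      = ((∑ q ∈ (Nat.gcd (p - 1) (p' - 1)).divisors, Nat.totient q : ℕ) : ℝ) := by rw [h1]
    _ = ∑ q ∈ (Nat.gcd (p - 1) (p' - 1)).divisors, (Nat.totient q : ℝ) := by push_cast; rfl
    _ ≤ _ := by
      refine Finset.sum_le_sum_of_subset_of_nonneg ?_ fun _ _ _ => by positivity
      intro q hq
      have hqd := Nat.dvd_of_mem_divisors hq
      have hq0 : 0 < q := Nat.pos_of_mem_divisors hq
      have h2 : q ∣ p - 1 := hqd.trans (Nat.gcd_dvd_left _ _)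
      have h3 : q ∣ p' - 1 := hqd.trans (Nat.gcd_dvd_right _ _)
      rw [Finset.mem_filter, Finset.mem_Ico]
      have h4 := Nat.le_of_dvd (by omega) h2
      exact ⟨⟨hq0, by omega⟩, h2, h3⟩

/-- partial sums of reciprocals -/
noncomputable def A (q l : ℕ) : ℝ :=
  ∑ k ∈ (Finset.Ico 1 (2 ^ (l + 1))).filter (fun k => (q * k + 1).Prime), (1 : ℝ) / k

lemma A_nonneg (q l : ℕ) : 0 ≤ A q l := Finset.sum_nonneg fun _ _ => by positivity

lemma sum_A (r l' : ℕ) :
    ∑ q ∈ Bl r, A q l' / q = ∑ l ∈ Finset.range (l' + 1), W r l := by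
  unfold A W
  rw [Finset.sum_comm]
  refine Finset.sum_congr rfl fun q hq => ?_
  rw [Finset.sum_filter, sum_dyadic, Finset.sum_div]
  refine Finset.sum_congr rfl fun l _ => ?_
  rw [← Finset.sum_filter, Finset.sum_div]
  refine Finset.sum_congr rfl fun k _ => ?_
  rw [div_div, mul_comm]

/-- the summand -/
noncomputable def F (p p' : ℕ) : ℝ :=
  1 / (((p - 1 : ℕ) : ℝ) * ((p' - 1 : ℕ) : ℝ) * ((Nat.log 2 p' : ℝ) + 1))

lemma F_nonneg (p p' : ℕ) : 0 ≤ F p p' := by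
  unfold F
  positivity

/-- inner sum -/
noncomputable def g (q p' : ℕ) : ℝ :=
  ∑ p ∈ (Finset.range p').filter (fun p => p.Prime ∧ q ∣ p - 1), F p p'

lemma g_nonneg (q p' : ℕ) : 0 ≤ g q p' := Finset.sum_nonneg fun _ _ => F_nonneg _ _

lemma g_le {r l' q k' : ℕ} (hq : q ∈ Bl r) (hk' : k' ∈ Bl l') :
    g q (q * k' + 1) ≤ A q l' / ((q : ℝ) ^ 2 * k' * ((r : ℝ) + l' + 1)) := by
  have hq1 := one_le_of_mem hq
  have hk1 := one_le_of_mem hk'
  obtain ⟨hq2, hq3⟩ := mem_Bl.1 hq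
  obtain ⟨hk2, hk3⟩ := mem_Bl.1 hk'
  have hlog : r + l' ≤ Nat.log 2 (q * k' + 1) := by
    apply Nat.le_log_of_pow_le (by norm_num)
    rw [pow_add]
    calc 2 ^ r * 2 ^ l' ≤ q * k' := Nat.mul_le_mul hq2 hk2
      _ ≤ q * k' + 1 := Nat.le_succ _
  have hlog' : (r : ℝ) + l' ≤ (Nat.log 2 (q * k' + 1) : ℝ) := by exact_mod_cast hlog
  have hqr : (0 : ℝ) < q := by exact_mod_cast hq1
  have hkr : (0 : ℝ) < k' := by exact_mod_cast hk1
  unfold g
  refine (reidx q (q * k' + 1) hq1 _ fun p => F_nonneg p _).trans ?_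
  unfold A
  rw [Finset.sum_div]
  calc ∑ k ∈ (Finset.Ico 1 (q * k' + 1)).filter
        (fun k => q * k + 1 < q * k' + 1 ∧ (q * k + 1).Prime), F (q * k + 1) (q * k' + 1)
      ≤ ∑ k ∈ (Finset.Ico 1 (q * k' + 1)).filter
        (fun k => q * k + 1 < q * k' + 1 ∧ (q * k + 1).Prime),
        1 / (k : ℝ) / ((q : ℝ) ^ 2 * k' * ((r : ℝ) + l' + 1)) := by
        refine Finset.sum_le_sum fun k hk => ?_
        rw [Finset.mem_filter, Finset.mem_Ico] at hk
        have hk0 : (0 : ℝ) < k := by exact_mod_cast hk.1.1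
        unfold F
        rw [Nat.add_sub_cancel, Nat.add_sub_cancel, div_div]
        push_cast
        apply one_div_le_one_div_of_le (by positivity)
        calc (k : ℝ) * ((q : ℝ) ^ 2 * k' * ((r : ℝ) + l' + 1))
            = (q : ℝ) * k * (q * k') * ((r : ℝ) + l' + 1) := by ring
          _ ≤ (q : ℝ) * k * (q * k') * ((Nat.log 2 (q * k' + 1) : ℝ) + 1) := by gcongr
    _ ≤ _ := by
        refine Finset.sum_le_sum_of_subset_of_nonneg ?_ fun _ _ _ => by positivity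
        intro k hk
        rw [Finset.mem_filter, Finset.mem_Ico] at hk ⊢
        obtain ⟨⟨h1, h2⟩, h3, h4⟩ := hk
        have h5 : q * k < q * k' := by omega
        have h6 : k < k' := lt_of_mul_lt_mul_left h5 (Nat.zero_le q)
        exact ⟨⟨h1, by omega⟩, h4⟩

/-- sum over pairs of primes which are `1` modulo `q` -/
noncomputable def G (L q : ℕ) : ℝ :=
  ∑ p' ∈ (Finset.range (2 ^ L)).filter (fun p => p.Prime ∧ q ∣ p - 1), g q p'

lemma G_le {C : ℝ} (hC : 0 < C)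
    (hBT : ∀ q l : ℕ, 1 ≤ q →
      (((Finset.Ico (2 ^ l) (2 ^ (l + 1))).filter (fun k => (q * k + 1).Prime)).card : ℝ) ≤
      C * ((q : ℝ) / (Nat.totient q)) * 2 ^ l / ((l : ℝ) + 1))
    {r q : ℕ} (L : ℕ) (hq : q ∈ Bl r) :
    (Nat.totient q : ℝ) * G L q ≤ ∑ l' ∈ Finset.range L,
      C / (((l' : ℝ) + 1) * ((r : ℝ) + l' + 1)) * (A q l' / q) := by
  have hq1 := one_le_of_mem hq
  have hqr : (0 : ℝ) < q := by exact_mod_cast hq1
  have hφ : 0 < (Nat.totient q : ℝ) := by exact_mod_cast Nat.totient_pos.2 hq1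
  have h1 : G L q ≤ ∑ l' ∈ Finset.range L,
      ∑ k' ∈ (Bl l').filter (fun k => (q * k + 1).Prime), g q (q * k' + 1) := by
    unfold G
    refine (reidx q (2 ^ L) hq1 _ fun p => g_nonneg q p).trans ?_
    have h2 : ∑ l' ∈ Finset.range L,
      ∑ k' ∈ (Bl l').filter (fun k => (q * k + 1).Prime), g q (q * k' + 1) =
      ∑ k' ∈ (Finset.Ico 1 (2 ^ L)).filter (fun k => (q * k + 1).Prime), g q (q * k' + 1) := by
      rw [Finset.sum_filter, sum_dyadic]
      refine Finset.sum_congr rfl fun l' _ => ?_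
      rw [Finset.sum_filter]
    rw [h2]
    refine Finset.sum_le_sum_of_subset_of_nonneg ?_ fun _ _ _ => g_nonneg _ _
    intro k hk
    rw [Finset.mem_filter] at hk ⊢
    exact ⟨hk.1, hk.2.2⟩
  have h3 : ∀ l' ∈ Finset.range L,
      ∑ k' ∈ (Bl l').filter (fun k => (q * k + 1).Prime), g q (q * k' + 1) ≤
      (A q l' / ((q : ℝ) ^ 2 * ((r : ℝ) + l' + 1))) *
        (C * ((q : ℝ) / (Nat.totient q)) / ((l' : ℝ) + 1)) := by
    intro l' _
    calc ∑ k' ∈ (Bl l').filter (fun k => (q * k + 1).Prime), g q (q * k' + 1)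
        ≤ ∑ k' ∈ (Bl l').filter (fun k => (q * k + 1).Prime),
          A q l' / ((q : ℝ) ^ 2 * 2 ^ l' * ((r : ℝ) + l' + 1)) := by
          refine Finset.sum_le_sum fun k' hk' => ?_
          have hk := (Finset.mem_filter.1 hk').1
          refine (g_le hq hk).trans ?_
          have hk2 : ((2 : ℝ) ^ l') ≤ k' := by exact_mod_cast (mem_Bl.1 hk).1
          have hA := A_nonneg q l'
          gcongr
      _ = (((Bl l').filter (fun k => (q * k + 1).Prime)).card : ℝ) *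
          (A q l' / ((q : ℝ) ^ 2 * 2 ^ l' * ((r : ℝ) + l' + 1))) := by
          rw [Finset.sum_const, nsmul_eq_mul]
      _ ≤ (C * ((q : ℝ) / (Nat.totient q)) * 2 ^ l' / ((l' : ℝ) + 1)) *
          (A q l' / ((q : ℝ) ^ 2 * 2 ^ l' * ((r : ℝ) + l' + 1))) := by
          have hA := A_nonneg q l'
          have := hBT q l' hq1
          gcongr
          exact this
      _ = _ := by field_simp
  calc (Nat.totient q : ℝ) * G L q
      ≤ (Nat.totient q : ℝ) * ∑ l' ∈ Finset.range L,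
        (A q l' / ((q : ℝ) ^ 2 * ((r : ℝ) + l' + 1))) *
        (C * ((q : ℝ) / (Nat.totient q)) / ((l' : ℝ) + 1)) := by
        gcongr
        exact h1.trans (Finset.sum_le_sum h3)
    _ = _ := by
        rw [Finset.mul_sum]
        refine Finset.sum_congr rfl fun l' _ => ?_
        field_simp

lemma total_le (L : ℕ) :
    ∑ p' ∈ (Finset.range (2 ^ L)).filter Nat.Prime, ∑ p ∈ (Finset.range p').filter Nat.Prime,
    ((Nat.gcd (p - 1) (p' - 1) : ℕ) : ℝ) /
      (((p : ℝ) - 1) * ((p' : ℝ) - 1) * ((Nat.log 2 p' : ℝ) + 1)) ≤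
    ∑ q ∈ Finset.Ico 1 (2 ^ L), (Nat.totient q : ℝ) * G L q := by
  have h1 : ∀ p' ∈ (Finset.range (2 ^ L)).filter Nat.Prime,
      ∑ p ∈ (Finset.range p').filter Nat.Prime, ((Nat.gcd (p - 1) (p' - 1) : ℕ) : ℝ) /
      (((p : ℝ) - 1) * ((p' : ℝ) - 1) * ((Nat.log 2 p' : ℝ) + 1)) ≤
      ∑ q ∈ Finset.Ico 1 (2 ^ L), ∑ p ∈ (Finset.range p').filter Nat.Prime,
        (if q ∣ p - 1 ∧ q ∣ p' - 1 then (Nat.totient q : ℝ) else 0) * F p p' := by
    intro p' hp'
    rw [Finset.mem_filter, Finset.mem_range] at hp'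
    rw [Finset.sum_comm]
    refine Finset.sum_le_sum fun p hp => ?_
    rw [Finset.mem_filter, Finset.mem_range] at hp
    have hp1 := hp.2.one_le
    have hp1' := hp'.2.one_le
    rw [← Finset.sum_mul]
    have h2 : ((Nat.gcd (p - 1) (p' - 1) : ℕ) : ℝ) /
      (((p : ℝ) - 1) * ((p' : ℝ) - 1) * ((Nat.log 2 p' : ℝ) + 1)) =
      ((Nat.gcd (p - 1) (p' - 1) : ℕ) : ℝ) * F p p' := by
      unfold F
      rw [Nat.cast_sub hp1, Nat.cast_sub hp1', mul_one_div]
      push_cast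
      rfl
    rw [h2]
    exact mul_le_mul_of_nonneg_right (gcd_le L p p' hp.2 hp.1 hp'.1) (F_nonneg _ _)
  refine (Finset.sum_le_sum h1).trans ?_
  rw [Finset.sum_comm]
  refine le_of_eq (Finset.sum_congr rfl fun q _ => ?_)
  unfold G g
  rw [Finset.mul_sum, Finset.sum_filter, Finset.sum_filter]
  refine Finset.sum_congr rfl fun p' _ => ?_
  by_cases hp' : p'.Prime
  · by_cases hq : q ∣ p' - 1
    · rw [if_pos hp', if_pos ⟨hp', hq⟩, Finset.mul_sum, Finset.sum_filter, Finset.sum_filter]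
      refine Finset.sum_congr rfl fun p _ => ?_
      by_cases hp : p.Prime
      · by_cases hqp : q ∣ p - 1
        · simp [hp, hqp, hq]
        · simp [hp, hqp]
      · simp [hp]
    · rw [if_pos hp', if_neg (fun h => hq h.2)]
      refine Finset.sum_eq_zero fun p _ => ?_
      simp [hq]
  · rw [if_neg hp', if_neg (fun h => hp' h.1)]

lemma sum_final (L : ℕ) :
    ∑ r ∈ Finset.range L, ∑ l' ∈ Finset.range L,
      (1 : ℝ) / (Real.sqrt ((r : ℝ) + 1) * Real.sqrt ((l' : ℝ) + 1) * ((r : ℝ) + l' + 1)) ≤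
    4 * (1 + Real.log ((L : ℝ) + 1)) := by
  set f : ℕ → ℕ → ℝ := fun r l' =>
    (1 : ℝ) / (Real.sqrt ((r : ℝ) + 1) * Real.sqrt ((l' : ℝ) + 1) * ((r : ℝ) + l' + 1)) with hf
  have hf0 : ∀ r l', 0 ≤ f r l' := fun r l' => by simp only [hf]; positivity
  have hsym : ∀ r l', f r l' = f l' r := fun r l' => by
    simp only [hf]
    congr 1
    ring
  have hhalf : ∀ r : ℕ, ∑ l' ∈ Finset.range (r + 1), f r l' ≤ 2 / ((r : ℝ) + 1) := by
    intro r
    have hs : 0 < Real.sqrt ((r : ℝ) + 1) := Real.sqrt_pos.2 (by positivity)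
    calc ∑ l' ∈ Finset.range (r + 1), f r l'
        ≤ ∑ l' ∈ Finset.range (r + 1), (1 / (Real.sqrt ((r : ℝ) + 1) * ((r : ℝ) + 1))) *
          (1 / Real.sqrt ((l' : ℝ) + 1)) := by
          refine Finset.sum_le_sum fun l' _ => ?_
          simp only [hf]
          rw [div_mul_div_comm, one_mul]
          have hs' : 0 < Real.sqrt ((l' : ℝ) + 1) := Real.sqrt_pos.2 (by positivity)
          apply one_div_le_one_div_of_le (by positivity)
          calc Real.sqrt ((r : ℝ) + 1) * ((r : ℝ) + 1) * Real.sqrt ((l' : ℝ) + 1)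
              = Real.sqrt ((r : ℝ) + 1) * Real.sqrt ((l' : ℝ) + 1) * ((r : ℝ) + 1) := by ring
            _ ≤ Real.sqrt ((r : ℝ) + 1) * Real.sqrt ((l' : ℝ) + 1) * ((r : ℝ) + l' + 1) := by
                gcongr
                have : (0 : ℝ) ≤ l' := by positivity
                linarith
      _ = (1 / (Real.sqrt ((r : ℝ) + 1) * ((r : ℝ) + 1))) *
          ∑ l' ∈ Finset.range (r + 1), (1 / Real.sqrt ((l' : ℝ) + 1)) := by
          rw [Finset.mul_sum]
      _ ≤ (1 / (Real.sqrt ((r : ℝ) + 1) * ((r : ℝ) + 1))) * (2 * Real.sqrt ((r + 1 : ℕ) : ℝ)) := by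
          gcongr
          exact sum_inv_sqrt (r + 1)
      _ = 2 / ((r : ℝ) + 1) := by
          push_cast
          field_simp
  have hsplit : ∑ r ∈ Finset.range L, ∑ l' ∈ Finset.range L, f r l' ≤
      2 * ∑ r ∈ Finset.range L, ∑ l' ∈ Finset.range (r + 1), f r l' := by
    have h1 : ∀ r ∈ Finset.range L, ∑ l' ∈ Finset.range L, f r l' ≤
        ∑ l' ∈ Finset.range (r + 1), f r l' +
        ∑ l' ∈ Finset.range L, if r ≤ l' then f r l' else 0 := by
      intro r hr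
      rw [Finset.mem_range] at hr
      have h2 : ∑ l' ∈ Finset.range (r + 1), f r l' =
          ∑ l' ∈ Finset.range L, if l' ≤ r then f r l' else 0 := by
        rw [← Finset.sum_filter]
        refine Finset.sum_congr ?_ fun _ _ => rfl
        ext a
        simp only [Finset.mem_range, Finset.mem_filter]
        omega
      rw [h2, ← Finset.sum_add_distrib]
      refine Finset.sum_le_sum fun l' _ => ?_
      rcases le_total r l' with h | h
      · rw [if_pos h]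
        have := hf0 r l'
        split_ifs <;> linarith
      · rw [if_pos h]
        have := hf0 r l'
        split_ifs <;> linarith
    refine (Finset.sum_le_sum h1).trans ?_
    rw [Finset.sum_add_distrib, two_mul]
    refine add_le_add le_rfl ?_
    rw [Finset.sum_comm]
    refine le_of_eq (Finset.sum_congr rfl fun l' hl' => ?_)
    rw [Finset.mem_range] at hl'
    rw [← Finset.sum_filter]
    refine Finset.sum_congr ?_ fun a _ => hsym _ _
    ext a
    simp only [Finset.mem_range, Finset.mem_filter]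
    omega
  have hharm : ∑ r ∈ Finset.range L, (1 : ℝ) / ((r : ℝ) + 1) ≤ 1 + Real.log L := by
    have h := harmonic_le_one_add_log L
    have h2 : ((harmonic L : ℚ) : ℝ) = ∑ r ∈ Finset.range L, (1 : ℝ) / ((r : ℝ) + 1) := by
      unfold harmonic
      push_cast
      refine Finset.sum_congr rfl fun r _ => ?_
      rw [one_div]
    rw [← h2]
    exact h
  have hlog : Real.log (L : ℝ) ≤ Real.log ((L : ℝ) + 1) := by
    rcases Nat.eq_zero_or_pos L with h | h
    · subst h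
      simp
    · apply Real.log_le_log (by exact_mod_cast h) (by linarith)
  calc ∑ r ∈ Finset.range L, ∑ l' ∈ Finset.range L, f r l'
      ≤ 2 * ∑ r ∈ Finset.range L, ∑ l' ∈ Finset.range (r + 1), f r l' := hsplit
    _ ≤ 2 * ∑ r ∈ Finset.range L, 2 / ((r : ℝ) + 1) := by
        gcongr with r _
        exact hhalf r
    _ = 4 * ∑ r ∈ Finset.range L, (1 : ℝ) / ((r : ℝ) + 1) := by
        rw [Finset.mul_sum, Finset.mul_sum]
        refine Finset.sum_congr rfl fun r _ => ?_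
        ring
    _ ≤ 4 * (1 + Real.log ((L : ℝ) + 1)) := by
        have := hharm
        linarith

theorem gcdSum (hBT : BT) (hT : InvTot) : GcdSum := by
  obtain ⟨C, hC, hBT⟩ := hBT
  obtain ⟨C', hC', hT⟩ := hT
  set D : ℝ := 2 * C * C' with hDdef
  have hD : 0 < D := by positivity
  have hW : ∀ r l, W r l ≤ D / (Real.sqrt ((r : ℝ) + 1) * Real.sqrt ((l : ℝ) + 1)) :=
    W_le_sqrt hD.le (fun r l => W_le hC hBT hT r l)
  refine ⟨8 * C * D, by positivity, fun L => ?_⟩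
  refine (total_le L).trans ?_
  rw [sum_dyadic]
  have h1 : ∀ r ∈ Finset.range L, ∑ q ∈ Bl r, (Nat.totient q : ℝ) * G L q ≤
      2 * C * D * ∑ l' ∈ Finset.range L,
      (1 : ℝ) / (Real.sqrt ((r : ℝ) + 1) * Real.sqrt ((l' : ℝ) + 1) * ((r : ℝ) + l' + 1)) := by
    intro r _
    refine (Finset.sum_le_sum fun q hq => G_le hC hBT L hq).trans ?_
    rw [Finset.sum_comm, Finset.mul_sum]
    refine Finset.sum_le_sum fun l' _ => ?_
    rw [← Finset.mul_sum, sum_A]
    have hs : 0 < Real.sqrt ((r : ℝ) + 1) := Real.sqrt_pos.2 (by positivity)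
    have hs' : 0 < Real.sqrt ((l' : ℝ) + 1) := Real.sqrt_pos.2 (by positivity)
    have hsq : Real.sqrt ((l' : ℝ) + 1) ^ 2 = (l' : ℝ) + 1 := Real.sq_sqrt (by positivity)
    have h2 : ∑ l ∈ Finset.range (l' + 1), W r l ≤
        D / Real.sqrt ((r : ℝ) + 1) * (2 * Real.sqrt ((l' : ℝ) + 1)) := by
      calc ∑ l ∈ Finset.range (l' + 1), W r l
          ≤ ∑ l ∈ Finset.range (l' + 1), D / Real.sqrt ((r : ℝ) + 1) *
            (1 / Real.sqrt ((l : ℝ) + 1)) := by
            refine Finset.sum_le_sum fun l _ => (hW r l).trans (le_of_eq ?_)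
            rw [div_mul_div_comm, mul_one]
        _ = D / Real.sqrt ((r : ℝ) + 1) *
            ∑ l ∈ Finset.range (l' + 1), (1 / Real.sqrt ((l : ℝ) + 1)) := by
            rw [Finset.mul_sum]
        _ ≤ _ := by
            have := sum_inv_sqrt (l' + 1)
            push_cast at this
            gcongr
    calc C / (((l' : ℝ) + 1) * ((r : ℝ) + l' + 1)) * ∑ l ∈ Finset.range (l' + 1), W r l
        ≤ C / (((l' : ℝ) + 1) * ((r : ℝ) + l' + 1)) *
          (D / Real.sqrt ((r : ℝ) + 1) * (2 * Real.sqrt ((l' : ℝ) + 1))) := by gcongr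
      _ = _ := by
          have h3 : ((l' : ℝ) + 1) = Real.sqrt ((l' : ℝ) + 1) ^ 2 := hsq.symm
          have h4 : C / (((l' : ℝ) + 1) * ((r : ℝ) + l' + 1)) =
            C / (Real.sqrt ((l' : ℝ) + 1) ^ 2 * ((r : ℝ) + l' + 1)) := by rw [hsq]
          rw [h4]
          field_simp
  refine (Finset.sum_le_sum h1).trans ?_
  rw [← Finset.mul_sum]
  calc 2 * C * D * ∑ r ∈ Finset.range L, ∑ l' ∈ Finset.range L,
      (1 : ℝ) / (Real.sqrt ((r : ℝ) + 1) * Real.sqrt ((l' : ℝ) + 1) * ((r : ℝ) + l' + 1))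
      ≤ 2 * C * D * (4 * (1 + Real.log ((L : ℝ) + 1))) := by
        gcongr
        exact sum_final L
    _ = _ := by ring

end Pool.Agent.H684R3.USS.B

namespace Pool.Agent.H684R3.USS

/-- Task B -/
theorem taskB : TaskB := fun h1 h2 => B.gcdSum h1 h2

end Pool.Agent.H684R3.USS
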