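import Pool.Agent.H684R3.USS.Stmts

set_option autoImplicit false

/-!
# Task E of the USS project (helper683): `GoodDensity` from `Block` and `NonGen`
-/

namespace Pool.Agent.H684R3.USS

open Finset Pool.Agent.H692R2.USS
open scoped Classical

namespace TaskEAux

/-- `n` has `t` distinct small residues below `L`. -/
def PP (k x L t n : ℕ) : Prop :=
  ∃ B : Finset ℕ, t ≤ B.card ∧ ∀ b ∈ B, b < L ∧ ∃ p, p.Prime ∧ SplitAll k p ∧ x ≤ p ∧ p < 2 ^ L ∧
    b = n % (p - 1) ∧ 4 * k * (k + 1) * (b + 1) ≤ Nat.log 2 p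

theorem dvd1 {L i p : ℕ} (hi : 2 ^ L ≤ i) (hp : p.Prime) (hpL : p < 2 ^ L) :
    p * (p - 1) ∣ i.factorial := by
  have h2 : p ∣ p := dvd_rfl
  have hp1 : 1 ≤ p - 1 := by have := hp.two_le; omega
  have h3 : p.factorial ∣ i.factorial := Nat.factorial_dvd_factorial (by omega)
  refine dvd_trans ?_ h3
  have h4 : p.factorial = p * (p - 1).factorial := by
    rw [Nat.mul_factorial_pred (by omega)]
  rw [h4]
  exact Nat.mul_dvd_mul_left _ (Nat.dvd_factorial (by omega) le_rfl)

theorem step (k : ℕ) (hk : 1 ≤ k) (hB : Block k) (x : ℕ) (δ : ℝ) (hδ : 0 < δ) (t : ℕ) :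
    ∃ L : ℕ, ∀ i, 2 ^ L ≤ i →
      (((Finset.range i.factorial).filter (fun n => ¬ PP k x L t n)).card : ℝ) ≤
        t * δ * i.factorial := by
  induction t with
  | zero =>
    refine ⟨0, fun i _ => ?_⟩
    have : (Finset.range i.factorial).filter (fun n => ¬ PP k x 0 0 n) = ∅ := by
      apply Finset.filter_eq_empty_iff.2
      intro n _
      rw [not_not]
      exact ⟨∅, by simp, by simp⟩
    rw [this]
    simp
  | succ t ih =>
    obtain ⟨L, hL⟩ := ih
    obtain ⟨L', hL'⟩ := hB L x δ hδ
    refine ⟨max L L', fun i hi => ?_⟩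
    have hiL : 2 ^ L ≤ i := le_trans (Nat.pow_le_pow_right (by norm_num) (le_max_left _ _)) hi
    have hiL' : 2 ^ L' ≤ i := le_trans (Nat.pow_le_pow_right (by norm_num) (le_max_right _ _)) hi
    have h1 := hL i hiL
    have h2 := hL' i.factorial (Nat.factorial_pos i)
      (fun p hp hpL => dvd_trans (Dvd.intro_left p rfl) (dvd1 hiL' hp hpL))
    have hsub : (Finset.range i.factorial).filter (fun n => ¬ PP k x (max L L') (t + 1) n) ⊆
        (Finset.range i.factorial).filter (fun n => ¬ PP k x L t n) ∪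
        (Finset.range i.factorial).filter (fun n => ∀ p, p.Prime → SplitAll k p → x ≤ p →
          p < 2 ^ L' → ¬ (L ≤ n % (p - 1) ∧
            4 * k * (k + 1) * (n % (p - 1) + 1) ≤ Nat.log 2 p)) := by
      intro n hn
      rw [Finset.mem_filter] at hn
      rw [Finset.mem_union, Finset.mem_filter, Finset.mem_filter]
      by_contra hcon
      rw [not_or] at hcon
      obtain ⟨hc1, hc2⟩ := hcon
      have hc1' : PP k x L t n := by
        by_contra h
        exact hc1 ⟨hn.1, h⟩
      have hc2' : ∃ p, p.Prime ∧ SplitAll k p ∧ x ≤ p ∧ p < 2 ^ L' ∧ (L ≤ n % (p - 1) ∧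
            4 * k * (k + 1) * (n % (p - 1) + 1) ≤ Nat.log 2 p) := by
        by_contra h
        apply hc2
        refine ⟨hn.1, fun p hp hs hx hpL hcon => h ⟨p, hp, hs, hx, hpL, hcon⟩⟩
      obtain ⟨B, hBc, hBp⟩ := hc1'
      obtain ⟨p, hp, hs, hx, hpL, hLb, hlog⟩ := hc2'
      apply hn.2
      refine ⟨insert (n % (p - 1)) B, ?_, ?_⟩
      · rw [Finset.card_insert_of_notMem]
        · omega
        · intro hmem
          have := (hBp _ hmem).1
          omega
      · intro b hb
        rw [Finset.mem_insert] at hb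
        rcases hb with rfl | hb
        · have hlt : Nat.log 2 p < L' := Nat.log_lt_of_lt_pow hp.pos.ne' hpL
          have hb1 : n % (p - 1) + 1 ≤ 4 * k * (k + 1) * (n % (p - 1) + 1) := by
            apply Nat.le_mul_of_pos_left
            positivity
          refine ⟨?_, p, hp, hs, hx, ?_, rfl, hlog⟩
          · have := le_max_right L L'
            omega
          · exact lt_of_lt_of_le hpL (Nat.pow_le_pow_right (by norm_num) (le_max_right _ _))
        · obtain ⟨h1, q, hq, hqs, hqx, hqL, hqb, hql⟩ := hBp b hb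
          refine ⟨lt_of_lt_of_le h1 (le_max_left _ _), q, hq, hqs, hqx, ?_, hqb, hql⟩
          exact lt_of_lt_of_le hqL (Nat.pow_le_pow_right (by norm_num) (le_max_left _ _))
    have h3 := Finset.card_le_card hsub
    have h4 := Finset.card_union_le
      ((Finset.range i.factorial).filter (fun n => ¬ PP k x L t n))
      ((Finset.range i.factorial).filter (fun n => ∀ p, p.Prime → SplitAll k p → x ≤ p →
          p < 2 ^ L' → ¬ (L ≤ n % (p - 1) ∧
            4 * k * (k + 1) * (n % (p - 1) + 1) ≤ Nat.log 2 p)))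
    have h5 : (((Finset.range i.factorial).filter
        (fun n => ¬ PP k x (max L L') (t + 1) n)).card : ℝ) ≤
        (((Finset.range i.factorial).filter (fun n => ¬ PP k x L t n)).card : ℝ) +
        (((Finset.range i.factorial).filter (fun n => ∀ p, p.Prime → SplitAll k p → x ≤ p →
          p < 2 ^ L' → ¬ (L ≤ n % (p - 1) ∧
            4 * k * (k + 1) * (n % (p - 1) + 1) ≤ Nat.log 2 p))).card : ℝ) := by
      exact_mod_cast le_trans h3 h4
    refine le_trans h5 ?_
    push_cast
    linarith

end TaskEAux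

open TaskEAux in
theorem taskE : TaskE := by
  intro hB hN k ε hε
  rcases Nat.eq_zero_or_pos k with rfl | hk
  · refine ⟨0, fun i _ => ?_⟩
    have : (Finset.range i.factorial).filter (fun n => ¬ Good i 0 n) = ∅ := by
      apply Finset.filter_eq_empty_iff.2
      intro n _
      rw [not_not]
      exact ⟨∅, by simp, by simp⟩
    rw [this]
    simp only [Finset.card_empty, Nat.cast_zero]
    positivity
  · obtain ⟨x, hx⟩ := hN k hk (ε / 2) (by positivity)
    have hkR : (0 : ℝ) < k := by exact_mod_cast hk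
    obtain ⟨L, hL⟩ := step k hk (hB k hk) x (ε / (2 * k)) (by positivity) k
    refine ⟨2 ^ L, fun i hi => ?_⟩
    have h1 := hL i hi
    have h2 := hx L i.factorial (Nat.factorial_pos i) (fun p hp hpL => dvd1 hi hp hpL)
    have hsub : (Finset.range i.factorial).filter (fun n => ¬ Good i k n) ⊆
        (Finset.range i.factorial).filter (fun n => ¬ PP k x L k n) ∪
        (Finset.range i.factorial).filter (fun n => ∃ p, p.Prime ∧ x ≤ p ∧ p < 2 ^ L ∧
          4 * k * (k + 1) * (n % (p - 1) + 1) ≤ Nat.log 2 p ∧ ¬ Generic k p n) := by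
      intro n hn
      rw [Finset.mem_filter] at hn
      rw [Finset.mem_union, Finset.mem_filter, Finset.mem_filter]
      by_contra hcon
      rw [not_or] at hcon
      obtain ⟨hc1, hc2⟩ := hcon
      have hc1' : PP k x L k n := by
        by_contra h
        exact hc1 ⟨hn.1, h⟩
      obtain ⟨B, hBc, hBp⟩ := hc1'
      apply hn.2
      refine ⟨B, hBc, fun b hb => ?_⟩
      obtain ⟨_, p, hp, hs, hxp, hpL, hbp, hlog⟩ := hBp b hb
      refine ⟨p, by omega, hp, hs, hlog, ?_, ?_⟩
      · rw [hbp]
        exact Nat.mod_modEq _ _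
      · by_contra hG
        exact hc2 ⟨hn.1, p, hp, hxp, hpL, by rw [← hbp]; exact hlog, hG⟩
    have h3 := Finset.card_le_card hsub
    have h4 := Finset.card_union_le
      ((Finset.range i.factorial).filter (fun n => ¬ PP k x L k n))
      ((Finset.range i.factorial).filter (fun n => ∃ p, p.Prime ∧ x ≤ p ∧ p < 2 ^ L ∧
          4 * k * (k + 1) * (n % (p - 1) + 1) ≤ Nat.log 2 p ∧ ¬ Generic k p n))
    have h5 : (((Finset.range i.factorial).filter (fun n => ¬ Good i k n)).card : ℝ) ≤
        (((Finset.range i.factorial).filter (fun n => ¬ PP k x L k n)).card : ℝ) +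
        (((Finset.range i.factorial).filter (fun n => ∃ p, p.Prime ∧ x ≤ p ∧ p < 2 ^ L ∧
          4 * k * (k + 1) * (n % (p - 1) + 1) ≤ Nat.log 2 p ∧ ¬ Generic k p n)).card : ℝ) := by
      exact_mod_cast le_trans h3 h4
    refine le_trans h5 ?_
    have h6 : (k : ℝ) * (ε / (2 * k)) * (i.factorial : ℝ) = ε / 2 * i.factorial := by
      field_simp
    rw [h6] at h1
    linarith

end Pool.Agent.H684R3.USS
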