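import Pool.Agent.H684R3.USS.Stmts

set_option autoImplicit false

/-!
# Task I of the USS project: Strassmann's theorem in integers (helper875)
-/

namespace Pool.Agent.H684R3.USS

open Polynomial Finset Nat

namespace I875

/-- the coefficients are divisible by growing powers of `p`, with a shift `e` -/
def PP (p e : ℕ) (H : ℤ[X]) : Prop := ∀ j, (p : ℤ) ^ ((j + e + 1) / 2) ∣ H.coeff j

theorem PP_step {p e : ℕ} {H H1 : ℤ[X]} {l : ℤ} (h : PP p e H) (hH : H = (X - C l) * H1) :
    PP p (e + 1) H1 := by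
  have key : ∀ n j, H1.natDegree < j + n → (p : ℤ) ^ ((j + (e + 1) + 1) / 2) ∣ H1.coeff j := by
    intro n
    induction n with
    | zero =>
      intro j hj
      rw [coeff_eq_zero_of_natDegree_lt (by omega)]
      exact dvd_zero _
    | succ n ih =>
      intro j hj
      have h1 := ih (j + 1) (by omega)
      have h2 := h (j + 1)
      have h3 : H.coeff (j + 1) = H1.coeff j - l * H1.coeff (j + 1) := by
        rw [hH, sub_mul, coeff_sub, coeff_X_mul, coeff_C_mul]
      have h4 : H1.coeff j = H.coeff (j + 1) + l * H1.coeff (j + 1) := by rw [h3]; ring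
      rw [h4]
      refine dvd_add ?_ ?_
      · exact dvd_trans (pow_dvd_pow _ (by omega)) h2
      · exact dvd_trans (pow_dvd_pow _ (by omega)) (dvd_mul_of_dvd_right h1 _)
  intro j
  exact key (H1.natDegree + 1) j (by omega)

theorem PP_prod {p : ℕ} (Z : Finset ℕ) : ∀ (e : ℕ) (H : ℤ[X]), PP p e H →
    (∀ l ∈ Z, H.eval (l : ℤ) = 0) →
    ∃ H' : ℤ[X], H = (∏ l ∈ Z, (X - C (l : ℤ))) * H' ∧ PP p (e + Z.card) H' := by
  induction Z using Finset.induction_on with
  | empty =>
    intro e H h _
    exact ⟨H, by simp, by simpa using h⟩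
  | insert l0 Z hl0 ih =>
    intro e H h hz
    have hd : (X - C (l0 : ℤ)) ∣ H := dvd_iff_isRoot.mpr (hz l0 (Finset.mem_insert_self _ _))
    obtain ⟨H1, hH1⟩ := hd
    have h1 := PP_step h hH1
    obtain ⟨H', hH', hP⟩ := ih (e + 1) H1 h1 (by
      intro l hl
      have h2 := hz l (Finset.mem_insert_of_mem hl)
      rw [hH1, eval_mul, eval_sub, eval_X, eval_C] at h2
      rcases mul_eq_zero.1 h2 with h3 | h3
      · exfalso
        have h4 : l = l0 := by exact_mod_cast sub_eq_zero.1 h3
        exact hl0 (h4 ▸ hl)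
      · exact h3)
    refine ⟨H', ?_, ?_⟩
    · rw [hH1, hH', Finset.prod_insert hl0, mul_assoc]
    · rw [Finset.card_insert_of_notMem hl0]
      have h5 : e + (Z.card + 1) = e + 1 + Z.card := by ring
      rw [h5]
      exact hP

theorem val_le {p : ℕ} (hp : p.Prime) (hp3 : 3 ≤ p) (i : ℕ) :
    2 * (i !).factorization p ≤ i := by
  have : Fact p.Prime := ⟨hp⟩
  have h := sub_one_mul_padicValNat_factorial (p := p) i
  rw [← Nat.factorization_def _ hp] at h
  have h1 : 2 * (i !).factorization p ≤ (p - 1) * (i !).factorization p :=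
    Nat.mul_le_mul_right _ (by omega)
  omega

theorem newton (h : ℕ → ℤ) (l : ℕ) : h l = ∑ i ∈ Finset.range (l + 1), (l.choose i : ℤ) *
    ∑ a ∈ Finset.range (i + 1), (-1) ^ (i - a) * (i.choose a : ℤ) * h a := by
  have h1 := shift_eq_sum_fwdDiff_iter (M := ℕ) (G := ℤ) 1 h l 0
  simp only [smul_eq_mul, mul_one, zero_add] at h1
  rw [h1]
  refine Finset.sum_congr rfl fun i _ => ?_
  rw [fwdDiff_iter_eq_sum_shift]
  simp only [smul_eq_mul, mul_one, zero_add, nsmul_eq_mul]

end I875

open I875 in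
theorem taskI : TaskI := by
  intro h p K hp hp3 hc Z hZ hz l
  choose c hc using hc
  set N := l + Z.sup id with hN
  have hp1 : 1 < p := by omega
  set M : ℕ := ordCompl[p] (N !) with hM
  set D : ℕ → ℤ := fun i => ((M / ordCompl[p] (i !) : ℕ) : ℤ) *
    (p : ℤ) ^ (i - (i !).factorization p) * c i with hD
  have hDd : ∀ i, (p : ℤ) ^ ((i + 1) / 2) ∣ D i := by
    intro i
    have h1 := val_le hp hp3 i
    have h2 : (p : ℤ) ^ ((i + 1) / 2) ∣ (p : ℤ) ^ (i - (i !).factorization p) :=
      pow_dvd_pow _ (by omega)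
    exact dvd_mul_of_dvd_left (dvd_mul_of_dvd_right h2 _) _
  have hDe : ∀ i ≤ N, D i * (i ! : ℤ) = M * ((p : ℤ) ^ i * c i) := by
    intro i hi
    have h1 := val_le hp hp3 i
    have h2 : ordCompl[p] (i !) ∣ M := Nat.ordCompl_dvd_ordCompl_of_dvd (Nat.factorial_dvd_factorial hi) p
    have h3 : (M / ordCompl[p] (i !)) * ordCompl[p] (i !) = M := Nat.div_mul_cancel h2
    have h4 : p ^ (i !).factorization p * ordCompl[p] (i !) = i ! :=
      Nat.ordProj_mul_ordCompl_eq_self _ _
    have h5 : (p : ℤ) ^ i = (p : ℤ) ^ (i - (i !).factorization p) * (p : ℤ) ^ ((i !).factorization p) := by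
      rw [← pow_add]
      congr 1
      omega
    have h3' : (((M / ordCompl[p] (i !) : ℕ) : ℤ)) * ((ordCompl[p] (i !) : ℕ) : ℤ) = (M : ℤ) := by
      exact_mod_cast h3
    have h4' : (p : ℤ) ^ (i !).factorization p * ((ordCompl[p] (i !) : ℕ) : ℤ) = (i ! : ℤ) := by
      exact_mod_cast h4
    rw [hD]
    simp only
    rw [← h4', h5, ← h3']
    ring
  set H : ℤ[X] := ∑ i ∈ Finset.range (N + 1), C (D i) * descPochhammer ℤ i with hH
  have hP : PP p 0 H := by
    intro j
    rw [hH, finsetSum_coeff]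
    refine Finset.dvd_sum fun i _ => ?_
    rw [coeff_C_mul]
    rcases lt_or_ge i j with hij | hij
    · rw [coeff_eq_zero_of_natDegree_lt (by rw [descPochhammer_natDegree]; exact hij), mul_zero]
      exact dvd_zero _
    · refine dvd_mul_of_dvd_left (dvd_trans (pow_dvd_pow _ ?_) (hDd i)) _
      omega
  have hev : ∀ x : ℕ, x ≤ N → H.eval (x : ℤ) = M * h x := by
    intro x hx
    rw [hH, eval_finsetSum, newton h x, Finset.mul_sum]
    have hsub : Finset.range (x + 1) ⊆ Finset.range (N + 1) :=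
      Finset.range_subset_range.2 (by omega)
    rw [← Finset.sum_subset hsub]
    · refine Finset.sum_congr rfl fun i hi => ?_
      have hi' : i ≤ N := by
        have := Finset.mem_range.1 hi
        omega
      rw [eval_mul, eval_C, descPochhammer_eval_eq_descFactorial, hc i,
        Nat.descFactorial_eq_factorial_mul_choose]
      push_cast
      have h1 := hDe i hi'
      linear_combination (x.choose i : ℤ) * h1
    · intro i _ hi
      have hxi : x < i := by
        rw [Finset.mem_range] at hi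
        omega
      rw [eval_mul, eval_C, descPochhammer_eval_eq_descFactorial,
        Nat.descFactorial_of_lt hxi]
      simp
  have hzero : ∀ x ∈ Z, H.eval (x : ℤ) = 0 := by
    intro x hx
    have hx' : x ≤ Z.sup id := Finset.le_sup (f := id) hx
    rw [hev x (by omega), hz x hx, mul_zero]
  obtain ⟨H', hH', hP'⟩ := PP_prod Z 0 H hP hzero
  have hd : (p : ℤ) ^ (K - K / 2) ∣ H.eval (l : ℤ) := by
    rw [hH', eval_mul]
    refine dvd_mul_of_dvd_right ?_ _
    rw [eval_eq_sum_range]
    refine Finset.dvd_sum fun j _ => dvd_mul_of_dvd_left (dvd_trans (pow_dvd_pow _ ?_) (hP' j)) _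
    omega
  rw [hev l (by omega)] at hd
  have hcop : IsCoprime ((p : ℤ) ^ (K - K / 2)) (M : ℤ) := by
    refine IsCoprime.pow_left ?_
    rw [Nat.isCoprime_iff_coprime]
    exact Nat.coprime_ordCompl hp (Nat.factorial_ne_zero N)
  exact hcop.dvd_of_dvd_mul_left hd

end Pool.Agent.H684R3.USS
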