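import Pool.Agent.H684R3.USS.Stmts

set_option autoImplicit false

/-!
# Universal Skolem sets of density one: tasks K and K2 (helper195)
-/

namespace Pool.Agent.H684R3.USS.K

open Polynomial Finset Pool.Agent.H692R2.USS

/-- `f(E)` -/
noncomputable abbrev P (f : ℤ[X]) : Module.End ℤ (ℕ → ℤ) := aeval (E ℤ) f

/-- multiplication by `n` -/
def Nm : Module.End ℤ (ℕ → ℤ) where
  toFun u n := (n : ℤ) * u n
  map_add' u v := by funext n; simp [mul_add]
  map_smul' c u := by funext n; simp; ring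

@[simp] lemma Nm_apply (u : ℕ → ℤ) (n : ℕ) : Nm u n = (n : ℤ) * u n := rfl

lemma Nm_pow_apply (j : ℕ) (u : ℕ → ℤ) (n : ℕ) : (Nm ^ j) u n = (n : ℤ) ^ j * u n := by
  induction j with
  | zero => simp
  | succ j ih => rw [pow_succ', Module.End.mul_apply, Nm_apply, ih]; ring

lemma Nm_pow_succ (j : ℕ) (u : ℕ → ℤ) : (Nm ^ (j + 1)) u = Nm ((Nm ^ j) u) := by
  rw [pow_succ', Module.End.mul_apply]

lemma P_mul (f h : ℤ[X]) (u : ℕ → ℤ) : P (f * h) u = P f (P h u) := by
  unfold P
  rw [map_mul, Module.End.mul_apply]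

lemma comm (f : ℤ[X]) (u : ℕ → ℤ) :
    P f (Nm u) = Nm (P f u) + P (X * derivative f) u := by
  induction f using Polynomial.induction_on' with
  | add p q hp hq =>
    simp only [P, map_add, LinearMap.add_apply, mul_add] at hp hq ⊢
    rw [hp, hq]
    abel
  | monomial i a =>
    funext n
    rw [Pi.add_apply, Nm_apply]
    have h : X * derivative (monomial i a : ℤ[X]) = monomial i (a * i) := by
      rw [derivative_monomial]
      rcases Nat.eq_zero_or_pos i with rfl | hi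
      · simp
      · rw [X_mul_monomial, Nat.sub_add_cancel hi]
    rw [h]
    simp only [P, aeval_monomial, Module.End.mul_apply, Module.algebraMap_end_apply, Pi.smul_apply,
      E_pow_apply, Nm_apply, smul_eq_mul]
    push_cast
    ring

variable (g : ℤ[X])

/-- sequences `∑_{i<j} n^i v_i(n)` -/
noncomputable def F : ℕ → Submodule ℤ (ℕ → ℤ)
  | 0 => ⊥
  | j + 1 => F j ⊔ (LinearMap.ker (P g)).map (Nm ^ j)

variable {g}

lemma F_succ (j : ℕ) : F g (j + 1) = F g j ⊔ (LinearMap.ker (P g)).map (Nm ^ j) := rfl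

lemma F_le (j : ℕ) : F g j ≤ F g (j + 1) := le_sup_left

lemma F_mono {i j : ℕ} (h : i ≤ j) : F g i ≤ F g j := monotone_nat_of_le_succ F_le h

lemma mem_F_succ {j : ℕ} {x : ℕ → ℤ} (hx : x ∈ F g (j + 1)) :
    ∃ y ∈ F g j, ∃ v, P g v = 0 ∧ x = y + (Nm ^ j) v := by
  rw [F_succ, Submodule.mem_sup] at hx
  obtain ⟨y, hy, z, hz, rfl⟩ := hx
  rw [Submodule.mem_map] at hz
  obtain ⟨v, hv, rfl⟩ := hz
  exact ⟨y, hy, v, LinearMap.mem_ker.1 hv, rfl⟩

lemma pow_mem {j : ℕ} {v : ℕ → ℤ} (hv : P g v = 0) : (Nm ^ j) v ∈ F g (j + 1) :=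
  (le_sup_right : _ ≤ F g (j + 1)) (Submodule.mem_map_of_mem (LinearMap.mem_ker.2 hv))

lemma Nm_mem {j : ℕ} {x : ℕ → ℤ} (hx : x ∈ F g j) : Nm x ∈ F g (j + 1) := by
  induction j generalizing x with
  | zero =>
    have : x = 0 := by simpa [F] using hx
    rw [this, map_zero]
    exact Submodule.zero_mem _
  | succ j ih =>
    obtain ⟨y, hy, v, hv, rfl⟩ := mem_F_succ hx
    rw [map_add, ← Nm_pow_succ]
    exact Submodule.add_mem _ (F_le _ (ih hy)) (pow_mem hv)

lemma ker_P {v : ℕ → ℤ} (hv : P g v = 0) (f : ℤ[X]) : P g (P f v) = 0 := by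
  rw [← P_mul, mul_comm, P_mul, hv, map_zero]

lemma lemA (f : ℤ[X]) {v : ℕ → ℤ} (hv : P g v = 0) (j : ℕ) :
    P f ((Nm ^ j) v) - (Nm ^ j) (P f v) ∈ F g j := by
  induction j generalizing f with
  | zero => simp
  | succ j ih =>
    have h1 := Nm_mem (ih f)
    have h2 := F_le _ (ih (X * derivative f))
    have h3 : (Nm ^ j) (P (X * derivative f) v) ∈ F g (j + 1) := pow_mem (ker_P hv _)
    have h4 : P f ((Nm ^ (j + 1)) v) - (Nm ^ (j + 1)) (P f v) =
        Nm (P f ((Nm ^ j) v) - (Nm ^ j) (P f v)) +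
        (P (X * derivative f) ((Nm ^ j) v) - (Nm ^ j) (P (X * derivative f) v)) +
        (Nm ^ j) (P (X * derivative f) v) := by
      rw [Nm_pow_succ, Nm_pow_succ, comm, map_sub]
      abel
    rw [h4]
    exact Submodule.add_mem _ (Submodule.add_mem _ h1 h2) h3

lemma lemB {v : ℕ → ℤ} (hv : P g v = 0) (j : ℕ) :
    P g ((Nm ^ (j + 1)) v) - ((j : ℤ) + 1) • (Nm ^ j) (P (X * derivative g) v) ∈ F g j := by
  induction j with
  | zero =>
    have : P g ((Nm ^ (0 + 1)) v) - (((0 : ℕ) : ℤ) + 1) • (Nm ^ 0) (P (X * derivative g) v) = 0 := by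
      rw [zero_add, pow_one, comm, hv, map_zero]
      simp
    rw [this]
    exact Submodule.zero_mem _
  | succ j ih =>
    have h1 := Nm_mem ih
    have h2 := lemA (X * derivative g) hv (j + 1)
    have h4 : P g ((Nm ^ (j + 1 + 1)) v) -
          (((j + 1 : ℕ) : ℤ) + 1) • (Nm ^ (j + 1)) (P (X * derivative g) v) =
        Nm (P g ((Nm ^ (j + 1)) v) - ((j : ℤ) + 1) • (Nm ^ j) (P (X * derivative g) v)) +
        (P (X * derivative g) ((Nm ^ (j + 1)) v) -
          (Nm ^ (j + 1)) (P (X * derivative g) v)) := by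
      rw [Nm_pow_succ (j + 1) v, comm, map_sub, map_smul, ← Nm_pow_succ]
      push_cast
      module
    rw [h4]
    exact Submodule.add_mem _ h1 h2

lemma P_mem {j : ℕ} {x : ℕ → ℤ} (hx : x ∈ F g (j + 1)) : P g x ∈ F g j := by
  induction j generalizing x with
  | zero =>
    obtain ⟨y, hy, v, hv, rfl⟩ := mem_F_succ hx
    have hy0 : y = 0 := by simpa [F] using hy
    rw [hy0, zero_add, pow_zero, Module.End.one_apply, hv]
    exact Submodule.zero_mem _
  | succ j ih =>
    obtain ⟨y, hy, v, hv, rfl⟩ := mem_F_succ hx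
    rw [map_add]
    refine Submodule.add_mem _ (F_le _ (ih hy)) ?_
    have h1 := F_le _ (lemB hv j)
    have h2 : (Nm ^ j) (P (X * derivative g) v) ∈ F g (j + 1) := pow_mem (ker_P hv _)
    have h3 := Submodule.add_mem _ h1 (Submodule.smul_mem _ ((j : ℤ) + 1) h2)
    rwa [sub_add_cancel] at h3

lemma P_pow_zero {m : ℕ} {x : ℕ → ℤ} (hx : x ∈ F g m) : P (g ^ m) x = 0 := by
  induction m generalizing x with
  | zero =>
    have : x = 0 := by simpa [F] using hx
    rw [this, map_zero]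
  | succ m ih => rw [pow_succ, P_mul]; exact ih (P_mem hx)

lemma sum_mem {m : ℕ} {v : ℕ → ℕ → ℤ} (hv : ∀ j < m, P g (v j) = 0) :
    ∑ j ∈ Finset.range m, (Nm ^ j) (v j) ∈ F g m := by
  induction m with
  | zero => simp
  | succ m ih =>
    rw [Finset.sum_range_succ]
    exact Submodule.add_mem _ (F_le _ (ih fun j hj => hv j (by omega))) (pow_mem (hv m (by omega)))

lemma mem_rep {m : ℕ} {x : ℕ → ℤ} (hx : x ∈ F g m) :
    ∃ v : ℕ → ℕ → ℤ, (∀ j < m, P g (v j) = 0) ∧ x = ∑ j ∈ Finset.range m, (Nm ^ j) (v j) := by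
  induction m generalizing x with
  | zero => exact ⟨0, by simp, by simpa [F] using hx⟩
  | succ m ih =>
    obtain ⟨y, hy, v, hv, rfl⟩ := mem_F_succ hx
    obtain ⟨w, hw, rfl⟩ := ih hy
    refine ⟨fun j => if j = m then v else w j, ?_, ?_⟩
    · intro j hj
      by_cases h : j = m
      · simp [h, hv]
      · simp only [h, if_false]; exact hw j (by omega)
    · rw [Finset.sum_range_succ]
      simp only [if_true]
      congr 1
      refine Finset.sum_congr rfl fun j hj => ?_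
      have : j ≠ m := by have := Finset.mem_range.1 hj; omega
      simp [this]

lemma sum_apply' {m : ℕ} {v : ℕ → ℕ → ℤ} (n : ℕ) :
    (∑ j ∈ Finset.range m, (Nm ^ j) (v j)) n = ∑ j ∈ Finset.range m, (n : ℤ) ^ j * v j n := by
  rw [Finset.sum_apply]
  exact Finset.sum_congr rfl fun j _ => Nm_pow_apply j _ n

lemma solve {s t : ℤ[X]} {rr : ℤ} (hst : s * g + t * (X * derivative g) = C rr) (hrr : rr ≠ 0)
    (m : ℕ) (x : ℕ → ℤ) (hx : x ∈ F g m) :
    ∃ D : ℤ, D ≠ 0 ∧ ∃ z ∈ F g (m + 1), P g z = D • x := by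
  induction m generalizing x with
  | zero =>
    have : x = 0 := by simpa [F] using hx
    exact ⟨1, one_ne_zero, 0, Submodule.zero_mem _, by rw [this]; simp⟩
  | succ m ih =>
    obtain ⟨y, hy, v, hv, rfl⟩ := mem_F_succ hx
    set v' := P t v with hv'
    have hv'0 : P g v' = 0 := ker_P hv t
    have hd : P (X * derivative g) v' = rr • v := by
      have h1 : X * derivative g * t = C rr - s * g := by rw [← hst]; ring
      rw [hv', ← P_mul, h1]
      have h2 : P (C rr - s * g) v = P (C rr) v - P (s * g) v := by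
        simp only [P, map_sub, LinearMap.sub_apply]
      rw [h2, P_mul, hv, map_zero, sub_zero]
      simp [P]
    have hB := lemB hv'0 m
    rw [hd] at hB
    set y1 := P g ((Nm ^ (m + 1)) v') - ((m : ℤ) + 1) • (Nm ^ m) (rr • v) with hy1
    set c : ℤ := ((m : ℤ) + 1) * rr with hc
    have hc0 : c ≠ 0 := mul_ne_zero (by positivity) hrr
    obtain ⟨D', hD', z', hz', hz⟩ := ih (c • y - y1)
      (Submodule.sub_mem _ (Submodule.smul_mem _ _ hy) hB)
    refine ⟨D' * c, mul_ne_zero hD' hc0, z' + D' • (Nm ^ (m + 1)) v',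
      Submodule.add_mem _ (F_le _ hz') (Submodule.smul_mem _ _ (pow_mem hv'0)), ?_⟩
    have h5 : P g ((Nm ^ (m + 1)) v') = y1 + c • (Nm ^ m) v := by
      rw [hy1, hc, map_smul]
      module
    rw [map_add, map_smul, hz, h5]
    module

lemma main {s t : ℤ[X]} {rr : ℤ} (hst : s * g + t * (X * derivative g) = C rr) (hrr : rr ≠ 0)
    (m : ℕ) (u : ℕ → ℤ) (hu : P (g ^ m) u = 0) : ∃ D : ℤ, D ≠ 0 ∧ D • u ∈ F g m := by
  induction m generalizing u with
  | zero =>
    have : u = 0 := by simpa [P] using hu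
    exact ⟨1, one_ne_zero, by rw [this]; simp⟩
  | succ m ih =>
    rw [pow_succ, P_mul] at hu
    obtain ⟨D, hD, h⟩ := ih _ hu
    obtain ⟨D', hD', z, hz, hz2⟩ := solve hst hrr m _ h
    refine ⟨D' * D, mul_ne_zero hD' hD, ?_⟩
    have h1 : P g (z - (D' * D) • u) = 0 := by
      rw [map_sub, map_smul, hz2, mul_smul, sub_self]
    have h2 : z - (D' * D) • u ∈ F g (m + 1) := by
      have := F_mono (g := g) (show 1 ≤ m + 1 by omega) (pow_mem (j := 0) h1)
      simpa using this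
    have h3 := Submodule.sub_mem _ hz h2
    rwa [sub_sub_cancel] at h3

end Pool.Agent.H684R3.USS.K

namespace Pool.Agent.H684R3.USS

open Polynomial Finset Pool.Agent.H692R2.USS

theorem taskK : TaskK := by
  intro g s t rr m u hst hrr hu
  obtain ⟨D, hD, h⟩ := K.main hst hrr m u hu
  have h2 : (D.natAbs : ℤ) • u ∈ K.F g m := by
    rcases Int.natAbs_eq D with h3 | h3
    · rwa [← h3]
    · have h4 : (D.natAbs : ℤ) = -D := by omega
      rw [h4, neg_smul]
      exact Submodule.neg_mem _ h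
  obtain ⟨v, hv, hv2⟩ := K.mem_rep h2
  refine ⟨D.natAbs, v, by have := Int.natAbs_ne_zero.2 hD; omega, hv, fun n => ?_⟩
  rw [← K.sum_apply' n, ← hv2]
  rfl

theorem taskK2 : TaskK2 := by
  intro g m v hv
  have h := K.P_pow_zero (K.sum_mem hv)
  have h2 : (∑ j ∈ Finset.range m, (K.Nm ^ j) (v j)) =
      fun n : ℕ => ∑ j ∈ Finset.range m, (n : ℤ) ^ j * v j n := by
    funext n; exact K.sum_apply' n
  rw [h2] at h
  exact h

end Pool.Agent.H684R3.USS
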