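import Pool.Agent.H684R3.USS.Stmts

set_option autoImplicit false

/-! Task M of the USS project (helper381). -/

namespace Pool.Agent.H684R3.USS

open Polynomial Finset Pool.Agent.H692R2.USS

theorem taskM : TaskM := by
  intro g hg h0
  obtain ⟨p, hp1, hp2⟩ := Nat.exists_infinite_primes ((g.coeff 0).natAbs + 4)
  haveI : Fact p.Prime := ⟨hp2⟩
  set G : (ZMod p)[X] := g.map (Int.castRingHom (ZMod p)) with hG
  have hGm : G.Monic := hg.map _
  haveI : Module.Finite (ZMod p) (AdjoinRoot G) := hGm.finite_adjoinRoot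
  haveI : Finite (AdjoinRoot G) := Module.finite_of_finite (ZMod p)
  -- the constant coefficient is nonzero mod `p`
  have hc : ((g.coeff 0 : ℤ) : ZMod p) ≠ 0 := by
    intro h
    have h1 : (p : ℤ) ∣ g.coeff 0 := (ZMod.intCast_zmod_eq_zero_iff_dvd _ _).1 h
    have h2 := Int.natAbs_dvd_natAbs.2 h1
    rw [Int.natAbs_natCast] at h2
    have h3 := Nat.le_of_dvd (Int.natAbs_pos.2 h0) h2
    omega
  have hunit : IsUnit (AdjoinRoot.root G) := by
    have h1 : X * G.divX + C (G.coeff 0) = G := by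
      rw [mul_comm]; exact G.divX_mul_X_add
    have h2 : AdjoinRoot.mk G G = 0 := AdjoinRoot.mk_self
    have h3 : AdjoinRoot.mk G X * AdjoinRoot.mk G G.divX
        + AdjoinRoot.mk G (C (G.coeff 0)) = 0 := by
      rw [← map_mul, ← map_add, h1, h2]
    have hc' : G.coeff 0 ≠ 0 := by
      rw [hG, coeff_map]; exact hc
    have h4 : AdjoinRoot.mk G (C (G.coeff 0)) * AdjoinRoot.mk G (C (G.coeff 0)⁻¹) = 1 := by
      rw [← map_mul, ← C_mul, mul_inv_cancel₀ hc', C_1, map_one]
    have h5 : AdjoinRoot.root G * (-(AdjoinRoot.mk G G.divX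
        * AdjoinRoot.mk G (C (G.coeff 0)⁻¹))) = 1 := by
      have h6 : AdjoinRoot.root G = AdjoinRoot.mk G X := rfl
      rw [h6]
      linear_combination (-(AdjoinRoot.mk G (C (G.coeff 0)⁻¹))) * h3 + h4
    exact IsUnit.of_mul_eq_one _ h5
  obtain ⟨u, hu⟩ := hunit
  obtain ⟨T, hT, hpow⟩ := isOfFinOrder_iff_pow_eq_one.1 (isOfFinOrder_of_finite u)
  have h7 : AdjoinRoot.mk G (X ^ T - 1) = 0 := by
    have h6 : AdjoinRoot.mk G X = (u : AdjoinRoot G) := hu.symm
    rw [map_sub, map_pow, map_one, h6, ← Units.val_pow_eq_pow_val, hpow, Units.val_one, sub_self]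
  obtain ⟨Q, hQ⟩ := AdjoinRoot.mk_eq_zero.1 h7
  obtain ⟨q, hq⟩ := Polynomial.map_surjective (Int.castRingHom (ZMod p))
    (ZMod.intCast_surjective) Q
  have h8 : (X ^ T - 1 - g * q).map (Int.castRingHom (ZMod p)) = 0 := by
    rw [Polynomial.map_sub, Polynomial.map_sub, Polynomial.map_pow, Polynomial.map_mul, map_X,
      Polynomial.map_one, hq, ← hG, ← hQ, sub_self]
  have h9 : C (p : ℤ) ∣ (X ^ T - 1 - g * q) := by
    rw [C_dvd_iff_dvd_coeff]
    intro i
    have := congrArg (fun f => f.coeff i) h8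
    simp only [coeff_map, coeff_zero, eq_intCast] at this
    exact (ZMod.intCast_zmod_eq_zero_iff_dvd _ _).1 this
  obtain ⟨w, hw⟩ := h9
  exact ⟨p, T, q, w, hp2, by omega, hT, by linear_combination hw⟩

end Pool.Agent.H684R3.USS
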