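import Pool.Agent.H684R3.USS.Stmts

set_option autoImplicit false

/-!
# Universal Skolem set of density one: task N (helper553)

`CertC` is recursively enumerable.
-/

namespace Pool.Agent.H684R3.USS

open Pool.Agent.H692R2.USS Pool.Agent.Helper446

section

variable {α : Type} [Primcodable α]

theorem re_zeq {a b : α → ℕ × ℕ} (ha : Computable a) (hb : Computable b) :
    REPred fun x => zeq (a x) (b x) := by
  unfold zeq
  exact RE.eq (by fun_prop) (by fun_prop)

theorem re_zlt {a : α → ℕ × ℕ} {c : α → ℕ} (ha : Computable a) (hc : Computable c) :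
    REPred fun x => zlt (a x) (c x) := by
  unfold zlt
  exact RE.and (RE.lt (by fun_prop) (by fun_prop)) (RE.lt (by fun_prop) (by fun_prop))

@[fun_prop] theorem cevL {L : α → List (ℕ × ℕ)} {x : α → ℕ} (hL : Computable L)
    (hx : Computable x) : Computable fun a => evL (L a) (x a) := by
  unfold evL
  refine czsum (q := fun a i => zm ((L a).getD i (0, 0)) ((x a) ^ i, 0)) ?_ (by fun_prop)
  fun_prop

@[fun_prop] theorem cevG {L : α → List (ℕ × ℕ)} {x : α → ℕ} (hL : Computable L)
    (hx : Computable x) : Computable fun a => evG (L a) (x a) := by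
  unfold evG
  fun_prop

@[fun_prop] theorem cevd {L : α → List (ℕ × ℕ)} {x : α → ℕ} (hL : Computable L)
    (hx : Computable x) : Computable fun a => evd (L a) (x a) := by
  unfold evd
  have h : Computable fun a => zsum (fun i => zm ((L a).getD i (0, 0)) (i * (x a) ^ i, 0))
      (L a).length := by
    refine czsum (q := fun a i => zm ((L a).getD i (0, 0)) (i * (x a) ^ i, 0)) ?_ (by fun_prop)
    fun_prop
  fun_prop

theorem re_all_zlt {L : α → List (ℕ × ℕ)} {n c : α → ℕ} (hL : Computable L) (hn : Computable n)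
    (hc : Computable c) : REPred fun a => ∀ i < n a, zlt ((L a).getD i (0, 0)) (c a) := by
  refine RE.all_lt (p := fun a i => zlt ((L a).getD i (0, 0)) (c a)) ?_ hn
  exact re_zlt (by fun_prop) (by fun_prop)

theorem re_Chk {p : α → List (ℕ × ℕ) × List (ℕ × ℕ)} {k D p0 T : α → ℕ}
    {G s t q w : α → List (ℕ × ℕ)} {rr : α → ℕ × ℕ} {A : α → List (List (ℕ × ℕ))}
    (hp : Computable p) (hk : Computable k) (hG : Computable G) (hs : Computable s)
    (ht : Computable t) (hq : Computable q) (hw : Computable w) (hrr : Computable rr)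
    (hA : Computable A) (hD : Computable D) (hp0 : Computable p0) (hT : Computable T) :
    REPred fun a => Chk (p a) (k a) (G a) (s a) (t a) (q a) (w a) (rr a) (A a) (D a) (p0 a)
      (T a) := by
  unfold Chk
  refine RE.and (RE.and ?_ (RE.and ?_ (RE.and ?_ (RE.and ?_ (RE.and ?_ (RE.and ?_ ?_))))))
    (RE.and ?_ (RE.and (RE.and ?_ ?_) (RE.and (RE.and ?_ ?_) (RE.and
      (RE.and ?_ (RE.and ?_ (RE.and ?_ (RE.and ?_ ?_)))) ?_))))
  · exact RE.le (by fun_prop) (by fun_prop)
  · exact RE.le (by fun_prop) (by fun_prop)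
  · exact re_all_zlt (by fun_prop) (by fun_prop) (by fun_prop)
  · exact RE.le (by fun_prop) (by fun_prop)
  · exact RE.le (by fun_prop) (by fun_prop)
  · exact RE.ne (by fun_prop) (by fun_prop)
  · exact re_zlt (by fun_prop) (by fun_prop)
  · refine RE.all_lt (p := fun a x =>
      zeq (za (zm (evL (s a) x) (evG (G a) x)) (zm (evL (t a) x) (evd (G a) x))) (rr a)) ?_
      (by fun_prop)
    exact re_zeq (by fun_prop) (by fun_prop)
  · exact RE.le (by fun_prop) (by fun_prop)
  · refine RE.all_lt (p := fun a j => ((A a).getD j []).length = (G a).length ∧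
      ∀ i < (G a).length, zlt (((A a).getD j []).getD i (0, 0)) (2 ^ (k a))) ?_ (by fun_prop)
    refine RE.and (RE.eq (by fun_prop) (by fun_prop)) ?_
    exact re_all_zlt (L := fun x : α × ℕ => (A x.1).getD x.2 []) (by fun_prop) (by fun_prop)
      (by fun_prop)
  · exact RE.le (by fun_prop) (by fun_prop)
  · refine RE.all_lt (p := fun a n =>
      zeq (zm (D a, 0) (run (Pool.Agent.H884R2.Sko.Fq (p a).1) (p a).2 n))
      (zsum (fun j => zm (n ^ j, 0) (run (G a) ((A a).getD j []) n)) (A a).length)) ?_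
      (by fun_prop)
    refine re_zeq ?_ ?_
    · have h1 : Computable fun x : α × ℕ => Pool.Agent.H884R2.Sko.Fq (p x.1).1 :=
        Pool.Agent.H884R2.Sko.cFq (by fun_prop)
      fun_prop
    · refine czsum (q := fun (x : α × ℕ) j => zm (x.2 ^ j, 0)
        (run (G x.1) ((A x.1).getD j []) x.2)) ?_ (by fun_prop)
      fun_prop
  · exact (cp_prime (by fun_prop)).to_re
  · exact RE.le (by fun_prop) (by fun_prop)
  · exact RE.le (by fun_prop) (by fun_prop)
  · exact RE.le (by fun_prop) (by fun_prop)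
  · refine RE.all_lt (p := fun a x =>
      zeq (x ^ (T a), 0) (za (1, 0) (za (zm (evG (G a) x) (evL (q a) x))
        (zm (p0 a, 0) (evL (w a) x))))) ?_ (by fun_prop)
    exact re_zeq (by fun_prop) (by fun_prop)
  · refine RE.all_lt (p := fun a r => ∃ y : ℕ × ℕ, y.1 < (A a).length ∧
      (run (G a) ((A a).getD y.1 []) (r + T a * y.2)).1 ≠
        (run (G a) ((A a).getD y.1 []) (r + T a * y.2)).2 ∧
      zlt (run (G a) ((A a).getD y.1 []) (r + T a * y.2)) (3 ^ (k a / 2))) ?_ (by fun_prop)
    refine RE.ex (p := fun (x : α × ℕ) (y : ℕ × ℕ) => y.1 < (A x.1).length ∧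
      (run (G x.1) ((A x.1).getD y.1 []) (x.2 + T x.1 * y.2)).1 ≠
        (run (G x.1) ((A x.1).getD y.1 []) (x.2 + T x.1 * y.2)).2 ∧
      zlt (run (G x.1) ((A x.1).getD y.1 []) (x.2 + T x.1 * y.2)) (3 ^ (k x.1 / 2))) ?_
    refine RE.and (RE.lt (by fun_prop) (by fun_prop)) (RE.and ?_ ?_)
    · exact RE.ne (by fun_prop) (by fun_prop)
    · exact re_zlt (by fun_prop) (by fun_prop)

end

/-- Task N: `CertC` is recursively enumerable. -/
theorem taskN : TaskN := by
  unfold TaskN CertC
  refine RE.ex (p := fun (x : (List (ℕ × ℕ) × List (ℕ × ℕ)) × ℕ) (c : Cod) =>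
    Chk x.1 x.2 c.1.1 c.1.2.1 c.1.2.2 c.2.1.1 c.2.1.2 c.2.2.1 c.2.2.2.1
      c.2.2.2.2.1 c.2.2.2.2.2.1 c.2.2.2.2.2.2) ?_
  exact re_Chk (by fun_prop) (by fun_prop) (by fun_prop) (by fun_prop) (by fun_prop)
    (by fun_prop) (by fun_prop) (by fun_prop) (by fun_prop) (by fun_prop) (by fun_prop)
    (by fun_prop)

end Pool.Agent.H684R3.USS
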