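import Pool.Agent.H684R3.USS.Stmts

set_option autoImplicit false

/-! Task O: soundness of codes. -/

namespace Pool.Agent.H684R3.USS.TO

open Polynomial Finset Pool.Agent.H692R2.USS

theorem iv_zeq {a b : ℕ × ℕ} (h : zeq a b) : iv a = iv b := by
  unfold zeq at h; unfold iv; omega

theorem iv_zlt {a : ℕ × ℕ} {c : ℕ} (h : zlt a c) : |iv a| < c := by
  unfold zlt at h; unfold iv; rw [abs_lt]; omega

/-- polynomial of a coded list -/
noncomputable def PL (L : List (ℕ × ℕ)) : ℤ[X] :=
  ∑ i ∈ range L.length, C (iv (L.getD i (0, 0))) * X ^ i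

theorem PL_natDegree (L : List (ℕ × ℕ)) : (PL L).natDegree ≤ L.length := by
  unfold PL
  refine natDegree_sum_le_of_forall_le _ _ fun i hi => ?_
  refine (natDegree_C_mul_X_pow_le _ _).trans ?_
  exact (Finset.mem_range.1 hi).le

theorem PL_eval (L : List (ℕ × ℕ)) (x : ℕ) : (PL L).eval (x : ℤ) = iv (evL L x) := by
  unfold PL evL
  rw [iv_zsum, eval_finsetSum]
  refine Finset.sum_congr rfl fun i _ => ?_
  simp

theorem PG_eq (G : List (ℕ × ℕ)) : PG G = X ^ G.length + PL G := rfl

theorem PG_eval (G : List (ℕ × ℕ)) (x : ℕ) : (PG G).eval (x : ℤ) = iv (evG G x) := by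
  rw [PG_eq, eval_add, PL_eval]
  unfold evG
  simp

theorem evd_eval (G : List (ℕ × ℕ)) (x : ℕ) :
    (X * derivative (PG G)).eval (x : ℤ) = iv (evd G x) := by
  rw [PG_eq]
  unfold PL evd
  rw [iv_za, iv_zsum, derivative_add, mul_add, eval_add, derivative_sum, Finset.mul_sum,
    eval_finsetSum]
  congr 1
  · rw [derivative_X_pow, eval_mul, eval_X, eval_mul, eval_C, eval_pow, eval_X, iv_nat]
    rcases G.length with _ | n
    · simp
    · push_cast
      ring
  · refine Finset.sum_congr rfl fun i _ => ?_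
    rw [derivative_C_mul_X_pow, iv_zm, eval_mul, eval_X, eval_mul, eval_C, eval_pow, eval_X, iv_nat]
    rcases i with _ | n
    · simp
    · push_cast
      ring

theorem poly_ext {f g : ℤ[X]} {N : ℕ} (hf : f.natDegree < N) (hg : g.natDegree < N)
    (h : ∀ x < N, f.eval (x : ℤ) = g.eval (x : ℤ)) : f = g := by
  rw [← sub_eq_zero]
  refine Polynomial.eq_zero_of_natDegree_lt_card_of_eval_eq_zero' (f - g)
    ((Finset.range N).map Nat.castEmbedding) ?_ ?_
  · intro i hi
    rw [Finset.mem_map] at hi
    obtain ⟨x, hx, rfl⟩ := hi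
    rw [Nat.castEmbedding_apply, eval_sub, h x (Finset.mem_range.1 hx), sub_self]
  · rw [Finset.card_map, Finset.card_range]
    refine (natDegree_sub_le _ _).trans_lt ?_
    exact max_lt hf hg

theorem natDegree_Xd (g : ℤ[X]) : (X * derivative g).natDegree ≤ g.natDegree := by
  rcases Nat.eq_zero_or_pos g.natDegree with h | h
  · rw [natDegree_eq_zero] at h
    obtain ⟨c, rfl⟩ := h
    simp
  · refine natDegree_mul_le.trans ?_
    have := natDegree_derivative_le g
    have h2 : (X : ℤ[X]).natDegree = 1 := natDegree_X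
    omega

theorem bound {G a : List (ℕ × ℕ)} {k : ℕ} (h1 : 1 ≤ G.length) (hk : G.length ≤ k)
    (hG : ∀ i < G.length, zlt (G.getD i (0, 0)) (k + 1)) (hkk : k * k + 1 ≤ 2 ^ k)
    (hl : a.length = G.length) (ha : ∀ i < G.length, zlt (a.getD i (0, 0)) (2 ^ k)) (b : ℕ) :
    |iv (run G a b)| < 2 ^ (k * (b + 1)) := by
  induction b using Nat.strong_induction_on with
  | _ b ih =>
    by_cases hb : b < G.length
    · rw [run_init (by omega)]
      refine (iv_zlt (ha b hb)).trans_le ?_
      push_cast
      refine pow_le_pow_right₀ (by norm_num) ?_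
      nlinarith
    · push Not at hb
      have h := ann_PG.1 (run_ann (G := G) (a := a) (by omega) hl) (b - G.length)
      simp only [Nat.sub_add_cancel hb] at h
      rw [h, abs_neg]
      have h2 : |∑ i ∈ range G.length, iv (G.getD i (0, 0)) * iv (run G a (b - G.length + i))| ≤
          ∑ i ∈ range G.length, (k : ℤ) * 2 ^ (k * b) := by
        refine (Finset.abs_sum_le_sum_abs _ _).trans (Finset.sum_le_sum fun i hi => ?_)
        rw [Finset.mem_range] at hi
        rw [abs_mul]
        have e1 : |iv (G.getD i (0, 0))| ≤ k := by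
          have := iv_zlt (hG i hi)
          push_cast at this
          omega
        have e2 : |iv (run G a (b - G.length + i))| ≤ 2 ^ (k * b) := by
          refine (ih (b - G.length + i) (by omega)).le.trans ?_
          refine pow_le_pow_right₀ (by norm_num) ?_
          exact Nat.mul_le_mul_left _ (by omega)
        exact mul_le_mul e1 e2 (abs_nonneg _) (by positivity)
      refine h2.trans_lt ?_
      rw [Finset.sum_const, Finset.card_range, nsmul_eq_mul, mul_add, mul_one, pow_add]
      have h3 : (G.length : ℤ) ≤ k := by exact_mod_cast hk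
      have h4 : (k : ℤ) * k + 1 ≤ 2 ^ k := by exact_mod_cast hkk
      have h5 : (0 : ℤ) < 2 ^ (k * b) := by positivity
      have h6 : (0 : ℤ) ≤ k := by positivity
      nlinarith [mul_le_mul_of_nonneg_right (mul_le_mul_of_nonneg_right h3 h6) h5.le]

end Pool.Agent.H684R3.USS.TO

namespace Pool.Agent.H684R3.USS

open Polynomial Finset Pool.Agent.H692R2.USS TO

theorem taskO : TaskO := by
  intro K2 p u k hu hc
  obtain ⟨⟨⟨G, s, t⟩, ⟨q, w⟩, rr, A, D, p0, T⟩, hc⟩ := hc
  simp only at hc
  obtain ⟨⟨hG1, hGk, hGc, hk1, hkk, hrr, hrrk⟩, hst, ⟨hAk, hA⟩, ⟨hD, hDu⟩,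
    ⟨hp0, hp03, hT1, hTk, hqw⟩, hlast⟩ := hc
  have hkk' : k * k + 1 ≤ 2 ^ k := hkk
  have hann : ∀ j < A.length, Ann (PG G) (fun n => iv (run G (A.getD j []) n)) := fun j hj =>
    run_ann (by rw [(hA j hj).1]; exact hG1) (hA j hj).1
  refine ⟨PG G, PL s, PL t, iv rr, A.length, D, p0, T, PL q, PL w,
    fun j n => iv (run G (A.getD j []) n), ⟨PG_monic G, ?_, ?_, ?_, ?_, ?_, hk1, hAk, hann, ?_,
      hp0, hp03, hT1, hTk, ?_⟩, hD, ?_, ?_⟩
  · rw [PG_natDegree]; exact hGk
  · intro i
    rw [PG_coeff]
    split_ifs with h1 h2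
    · have := iv_zlt (hGc i h1)
      push_cast at this
      omega
    · simp; omega
    · simp
  · refine poly_ext (N := s.length + t.length + G.length + 1) ?_ ?_ ?_
    · refine (natDegree_add_le _ _).trans_lt (max_lt ?_ ?_)
      · refine natDegree_mul_le.trans_lt ?_
        have := PL_natDegree s
        rw [PG_natDegree]
        omega
      · refine natDegree_mul_le.trans_lt ?_
        have := PL_natDegree t
        have h2 := natDegree_Xd (PG G)
        rw [PG_natDegree] at h2
        omega
    · rw [natDegree_C]; omega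
    · intro x hx
      have := iv_zeq (hst x hx)
      rw [iv_za, iv_zm, iv_zm] at this
      rw [eval_add, eval_mul, eval_mul, PL_eval, PL_eval, PG_eval, evd_eval, eval_C, this]
  · unfold iv
    intro h
    apply hrr
    omega
  · have := iv_zlt hrrk
    push_cast at this
    omega
  · intro j hj b
    exact bound hG1 hGk hGc hkk' (hA j hj).1 (hA j hj).2 b
  · refine poly_ext (N := T + G.length + q.length + w.length + 1) ?_ ?_ ?_
    · refine (natDegree_sub_le _ _).trans_lt (max_lt ?_ ?_)
      · rw [natDegree_X_pow]; omega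
      · rw [natDegree_one]; omega
    · refine (natDegree_add_le _ _).trans_lt (max_lt ?_ ?_)
      · refine natDegree_mul_le.trans_lt ?_
        have := PL_natDegree q
        rw [PG_natDegree]
        omega
      · refine (natDegree_C_mul_le _ _).trans_lt ?_
        have := PL_natDegree w
        omega
    · intro x hx
      have := iv_zeq (hqw x hx)
      rw [iv_za, iv_za, iv_zm, iv_zm] at this
      simp only [iv_nat] at this
      rw [eval_sub, eval_pow, eval_X, eval_one, eval_add, eval_mul, eval_mul, PL_eval, PL_eval,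
        PG_eval, eval_C]
      push_cast at this
      rw [this]
      ring
  · have h1 : 1 ≤ p.1.length := Pool.Agent.H884R2.Sko.getLast_iff' p.1 hu.2.1
    have h2 : Ann (PG (Pool.Agent.H884R2.Sko.Fq p.1)) u := by
      have := run_ann (G := Pool.Agent.H884R2.Sko.Fq p.1) (a := p.2) (by rw [← hu.1]; exact h1)
        (by rw [Pool.Agent.H884R2.Sko.Fq_length]; exact hu.1.symm)
      have e : (fun n => iv (run (Pool.Agent.H884R2.Sko.Fq p.1) p.2 n)) = u :=
        funext fun n => Pool.Agent.H884R2.Sko.isLRS_run' hu n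
      rwa [e] at this
    have h3 := K2 (PG G) A.length (fun j n => iv (run G (A.getD j []) n)) hann
    have h4 : Ann (PG (Pool.Agent.H884R2.Sko.Fq p.1) * (PG G) ^ A.length) ((D : ℤ) • u) :=
      (h2.smul _).mul_right _
    have h5 := h3.mul_left (PG (Pool.Agent.H884R2.Sko.Fq p.1))
    have hm : (PG (Pool.Agent.H884R2.Sko.Fq p.1) * (PG G) ^ A.length).Monic :=
      (PG_monic _).mul ((PG_monic G).pow _)
    intro n
    refine Ann.ext hm h4 h5 (fun n hn => ?_) n
    rw [(PG_monic _).natDegree_mul ((PG_monic G).pow _), (PG_monic G).natDegree_pow, PG_natDegree,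
      PG_natDegree, Pool.Agent.H884R2.Sko.Fq_length] at hn
    have := iv_zeq (hDu n hn)
    rw [iv_zm, iv_nat, Pool.Agent.H884R2.Sko.isLRS_run' hu, iv_zsum] at this
    rw [Pi.smul_apply, smul_eq_mul, this]
    refine Finset.sum_congr rfl fun j _ => ?_
    rw [iv_zm, iv_nat]
    push_cast
    ring
  · intro r hr
    obtain ⟨y, hy1, hy2, hy3⟩ := hlast r hr
    refine ⟨y.1, hy1, y.2, ?_, ?_⟩
    · intro h
      apply hy2
      simp only [iv] at h
      omega
    · have := iv_zlt hy3
      push_cast at this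
      exact this

end Pool.Agent.H684R3.USS
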