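import Pool.Agent.H684R3.USS.Stmts

set_option autoImplicit false

/-! # Task P: completeness of codes (helper74) -/

namespace Pool.Agent.H684R3.USS.P

open Polynomial Finset Pool.Agent.H692R2.USS Pool.Agent.H684R3.USS

theorem zlt_iff (a : ℕ × ℕ) (c : ℕ) : zlt a c ↔ |iv a| < (c : ℤ) := by
  unfold zlt iv
  rw [abs_lt]
  constructor
  · rintro ⟨h1, h2⟩
    constructor <;> omega
  · rintro ⟨h1, h2⟩
    constructor <;> omega

theorem zeq_iff (a b : ℕ × ℕ) : zeq a b ↔ iv a = iv b := by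
  unfold zeq iv
  omega

theorem zne_iff (a : ℕ × ℕ) : a.1 ≠ a.2 ↔ iv a ≠ 0 := by
  unfold iv
  omega

/-- the list of codes of the first `N` values of `f`. -/
def cl (f : ℕ → ℤ) (N : ℕ) : List (ℕ × ℕ) := (List.range N).map fun i => zc (f i)

theorem cl_length (f : ℕ → ℤ) (N : ℕ) : (cl f N).length = N := by simp [cl]

theorem cl_getD {f : ℕ → ℤ} {N i : ℕ} (h : i < N) : (cl f N).getD i (0, 0) = zc (f i) := by
  unfold cl
  rw [List.getD_eq_getElem?_getD, List.getElem?_map, List.getElem?_range h]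
  rfl

theorem iv_cl {f : ℕ → ℤ} {N i : ℕ} (h : i < N) : iv ((cl f N).getD i (0, 0)) = f i := by
  rw [cl_getD h, iv_zc]

theorem PG_cl {g : ℤ[X]} (hg : g.Monic) : PG (cl g.coeff g.natDegree) = g := by
  ext i
  rw [PG_coeff, cl_length]
  rcases lt_trichotomy i g.natDegree with h | h | h
  · rw [if_pos h, iv_cl h]
  · rw [if_neg (by omega), if_pos h, h]
    exact hg.coeff_natDegree.symm
  · rw [if_neg (by omega), if_neg (by omega), coeff_eq_zero_of_natDegree_lt h]

theorem iv_evL (f : ℤ[X]) {N : ℕ} (hN : f.natDegree < N) (x : ℕ) :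
    iv (evL (cl f.coeff N) x) = f.eval (x : ℤ) := by
  unfold evL
  rw [iv_zsum, cl_length, eval_eq_sum_range' hN]
  refine Finset.sum_congr rfl fun i hi => ?_
  rw [iv_zm, iv_cl (Finset.mem_range.1 hi), iv_nat]
  push_cast
  rfl

theorem iv_evG {g : ℤ[X]} (hg : g.Monic) (x : ℕ) :
    iv (evG (cl g.coeff g.natDegree) x) = g.eval (x : ℤ) := by
  unfold evG evL
  rw [iv_za, iv_zsum, cl_length, iv_nat, eval_eq_sum_range, Finset.sum_range_succ,
    hg.coeff_natDegree, one_mul, add_comm]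
  push_cast
  congr 1
  refine Finset.sum_congr rfl fun i hi => ?_
  rw [iv_zm, iv_cl (Finset.mem_range.1 hi), iv_nat]
  push_cast
  rfl

theorem eval_Xd (g : ℤ[X]) (x : ℤ) :
    (X * derivative g).eval x = ∑ i ∈ range (g.natDegree + 1), g.coeff i * (i * x ^ i) := by
  rw [eval_mul, eval_X, derivative_eval, sum_over_range' _ _ (g.natDegree + 1) (by omega),
    Finset.mul_sum]
  · refine Finset.sum_congr rfl fun i _ => ?_
    rcases i with _ | i
    · simp
    · rw [Nat.add_sub_cancel, pow_succ]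
      ring
  · intro i
    simp

theorem iv_evd {g : ℤ[X]} (hg : g.Monic) (x : ℕ) :
    iv (evd (cl g.coeff g.natDegree) x) = (X * derivative g).eval (x : ℤ) := by
  unfold evd
  rw [iv_za, iv_zsum, cl_length, iv_nat, eval_Xd, Finset.sum_range_succ, hg.coeff_natDegree,
    one_mul, add_comm]
  push_cast
  congr 1
  refine Finset.sum_congr rfl fun i hi => ?_
  rw [iv_zm, iv_cl (Finset.mem_range.1 hi), iv_nat]
  push_cast
  rfl

theorem ev_lin (x : ℤ) : ∀ᶠ k : ℕ in Filter.atTop, |x| < ((k + 1 : ℕ) : ℤ) := by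
  filter_upwards [Filter.eventually_ge_atTop x.natAbs] with k hk
  rw [Int.abs_eq_natAbs]
  exact_mod_cast Nat.lt_succ_of_le hk

theorem ev_two (x : ℤ) : ∀ᶠ k : ℕ in Filter.atTop, |x| < ((2 ^ k : ℕ) : ℤ) := by
  filter_upwards [Filter.eventually_ge_atTop x.natAbs] with k hk
  have h1 : k < 2 ^ k := Nat.lt_two_pow_self
  rw [Int.abs_eq_natAbs]
  exact_mod_cast hk.trans_lt h1

theorem ev_three (x : ℤ) : ∀ᶠ k : ℕ in Filter.atTop, |x| < ((3 ^ (k / 2) : ℕ) : ℤ) := by
  filter_upwards [Filter.eventually_ge_atTop (2 * x.natAbs)] with k hk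
  have h1 : k / 2 < 3 ^ (k / 2) := Nat.lt_pow_self (by norm_num)
  have h2 : x.natAbs ≤ k / 2 := by omega
  rw [Int.abs_eq_natAbs]
  exact_mod_cast h2.trans_lt h1

theorem ev_sq : ∀ᶠ k : ℕ in Filter.atTop, k * k + 1 ≤ 2 ^ k := by
  filter_upwards [Filter.eventually_ge_atTop 5] with k hk
  induction k, hk using Nat.le_induction with
  | base => norm_num
  | succ n hn ih =>
    rw [pow_succ]
    nlinarith

theorem taskP : TaskP := by
  intro p u g s t rr m D p0 T q w v hu hg hd hst hrr hv hD hsum hp0 h3 hT hper hne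
  set d := g.natDegree with hdd
  set A : List (List (ℕ × ℕ)) := (List.range m).map fun j => cl (v j) d with hA
  have hAl : A.length = m := by rw [hA, List.length_map, List.length_range]
  have hAg : ∀ j < m, A.getD j [] = cl (v j) d := by
    intro j hj
    rw [hA, List.getD_eq_getElem?_getD, List.getElem?_map, List.getElem?_range hj]
    rfl
  have hrun : ∀ j < m, ∀ n, iv (run (cl g.coeff d) (A.getD j []) n) = v j n := by
    intro j hj n
    rw [hAg j hj]
    refine run_eq (by rw [cl_length]; exact hd) (by rw [cl_length, cl_length]) ?_ ?_ n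
    · rw [hdd, PG_cl hg]
      exact hv j hj
    · intro i hi
      rw [cl_length] at hi
      rw [iv_cl hi]
  have hne' : ∀ r ∈ Finset.range T, ∀ᶠ k : ℕ in Filter.atTop, ∃ y : ℕ × ℕ, y.1 < m ∧
      v y.1 (r + T * y.2) ≠ 0 ∧ |v y.1 (r + T * y.2)| < ((3 ^ (k / 2) : ℕ) : ℤ) := by
    intro r hr
    obtain ⟨j, hj, l, hl⟩ := hne r (Finset.mem_range.1 hr)
    filter_upwards [ev_three (v j (r + T * l))] with k hk
    exact ⟨(j, l), hj, hl, hk⟩
  have e1 : ∀ᶠ k : ℕ in Filter.atTop, ∀ i ∈ Finset.range d, |g.coeff i| < ((k + 1 : ℕ) : ℤ) :=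
    (Filter.eventually_all_finset _).2 fun i _ => ev_lin _
  have e2 : ∀ᶠ k : ℕ in Filter.atTop, ∀ j ∈ Finset.range m, ∀ i ∈ Finset.range d,
      |v j i| < ((2 ^ k : ℕ) : ℤ) :=
    (Filter.eventually_all_finset _).2 fun j _ =>
      (Filter.eventually_all_finset _).2 fun i _ => ev_two _
  have e3 := (Filter.eventually_all_finset _).2 hne'
  obtain ⟨k, k1, k2, k3, k4, k5, k6, k7, k8, k9⟩ := (e1.and (e2.and (e3.and (ev_sq.and
    ((Filter.eventually_ge_atTop d).and ((Filter.eventually_ge_atTop 1).and ((ev_lin rr).and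
      ((Filter.eventually_ge_atTop m).and (Filter.eventually_ge_atTop T))))))))).exists
  refine ⟨k, ((cl g.coeff d, cl s.coeff (s.natDegree + 1), cl t.coeff (t.natDegree + 1)),
    (cl q.coeff (q.natDegree + 1), cl w.coeff (w.natDegree + 1)), zc rr, A, (D, p0, T)), ?_⟩
  unfold Chk
  simp only
  refine ⟨⟨?_, ?_, ?_, k6, k4, ?_, ?_⟩, ?_, ⟨?_, ?_⟩, ⟨hD, ?_⟩, ⟨hp0, h3, hT, k9, ?_⟩, ?_⟩
  · rw [cl_length]; exact hd
  · rw [cl_length]; exact k5
  · intro i hi
    rw [cl_length] at hi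
    rw [zlt_iff, iv_cl hi]
    exact k1 i (Finset.mem_range.2 hi)
  · rw [zne_iff, iv_zc]; exact hrr
  · rw [zlt_iff, iv_zc]; exact k7
  · intro x _
    rw [zeq_iff, iv_za, iv_zm, iv_zm, iv_evL s (by omega), iv_evL t (by omega), hdd, iv_evG hg,
      iv_evd hg, iv_zc]
    have h := congrArg (fun f : ℤ[X] => f.eval (x : ℤ)) hst
    simp only [eval_add, eval_mul, eval_C] at h ⊢
    exact h
  · rw [hAl]; exact k8
  · intro j hj
    rw [hAl] at hj
    rw [hAg j hj, cl_length, cl_length]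
    refine ⟨rfl, fun i hi => ?_⟩
    rw [zlt_iff, iv_cl hi]
    exact k2 j (Finset.mem_range.2 hj) i (Finset.mem_range.2 hi)
  · intro n _
    rw [zeq_iff, iv_zm, iv_nat, iv_zsum, hAl, Pool.Agent.H884R2.Sko.isLRS_run' hu, hsum n]
    refine Finset.sum_congr rfl fun j hj => ?_
    rw [iv_zm, iv_nat, hrun j (Finset.mem_range.1 hj)]
    push_cast
    rfl
  · intro x _
    rw [zeq_iff, iv_za, iv_za, iv_zm, iv_zm, iv_evL q (by omega), iv_evL w (by omega), hdd,
      iv_evG hg, iv_nat, iv_nat, iv_nat]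
    have h := congrArg (fun f : ℤ[X] => f.eval (x : ℤ)) hper
    simp only [eval_add, eval_mul, eval_C, eval_sub, eval_pow, eval_X, eval_one] at h
    push_cast
    linarith
  · intro r hr
    obtain ⟨y, hy1, hy2, hy3⟩ := k3 r (Finset.mem_range.2 hr)
    refine ⟨y, by rw [hAl]; exact hy1, ?_, ?_⟩
    · rw [zne_iff, hrun _ hy1]; exact hy2
    · rw [zlt_iff, hrun _ hy1]; exact hy3

end Pool.Agent.H684R3.USS.P

namespace Pool.Agent.H684R3.USS

theorem taskP : TaskP := P.taskP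

end Pool.Agent.H684R3.USS
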