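import Pool.Agent.H684R3.USS.Asm2
import Pool.Agent.H684R3.USS.TaskB
import Pool.Agent.H684R3.USS.TaskE
import Pool.Agent.H684R3.USS.TaskI
import Pool.Agent.H684R3.USS.TaskK
import Pool.Agent.H684R3.USS.TaskM
import Pool.Agent.H684R3.USS.TaskN
import Pool.Agent.H684R3.USS.TaskO
import Pool.Agent.H684R3.USS.TaskP
import Pool.Agent.H472R3.USSA
import Pool.Agent.H233R3.USS.C2
import Pool.Agent.H138R3.USS.TaskD
import Pool.Agent.H784R3.TaskF
import Pool.Agent.H884R3.USS.TaskG
import Pool.Agent.H676R4.USSTaskH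
import Pool.Agent.H266R3.USS.TaskJ
import Pool.Agent.H77R3.USSL.TaskL
import Pool.Agent.H692R2.USS.T5

set_option autoImplicit false

namespace Pool.Agent.H684R3.USS

open Pool.Agent.H692R2.USS

theorem main1 : Final :=
  final Pool.Agent.H472R3.USSA.taskA taskB Pool.Agent.H233R3.USS.taskC Pool.Agent.H138R3.USS.taskD
    taskE Pool.Agent.H784R3.USSF.taskF Pool.Agent.H884R3.USS.taskG Pool.Agent.H676R4.USSTaskH.taskH
    taskI Pool.Agent.H266R3.USS.taskJ taskK taskK2 Pool.Agent.H77R3.USSL.taskL taskM taskN taskO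
    taskP bt (fun K _ _ => massK bt K)

end Pool.Agent.H684R3.USS
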