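import Pool.Agent.H684R3.USS.Stmts2
import Pool.Agent.H266R3.USS.TaskJ

set_option autoImplicit false

/-!
# Task J2 of the USS project (helper684): zeros at good `n` lie in full progressions of zeros
-/

namespace Pool.Agent.H684R3.USS

open Polynomial Finset Pool.Agent.H692R2.USS
open scoped Classical

theorem taskJ2 : TaskJ2 := by
  intro hH hI u k i n hcert hgood hun
  obtain ⟨g, s, t, rr, m, D, p0, T, q, w, v, hbase, hD, hdec, hnz⟩ := hcert
  obtain ⟨hg, hgd, hgc, hst, hrr, hrk, hk, hm, hAnn, hv, hp0, hp3, hT, hTk, hX⟩ := hbase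
  obtain ⟨B, hB, hBp⟩ := hgood
  have hrT' : n % T < T := Nat.mod_lt _ (by omega)
  rcases hnz (n % T) hrT' with hall | hnz'
  · exact ⟨T, hT, hall⟩
  exfalso
  have hsum : ∑ j ∈ Finset.range m, (n : ℤ) ^ j * v j n = 0 := by
    rw [← hdec n, hun, mul_zero]
  have hzero : ∀ b ∈ B, ∀ j < m, v j b = 0 := by
    intro b hb
    obtain ⟨p, -, hp⟩ := hBp b hb
    exact hH g s t rr m k p n b v hg hgd hgc hst hrr hrk hk hm hAnn hv hp
      (by rw [hsum]; exact dvd_zero _)
  have hmod : ∀ b ∈ B, b % T = n % T := by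
    intro b hb
    obtain ⟨p, -, hp⟩ := hBp b hb
    obtain ⟨hpp, hsp, hlog, hbn, -⟩ := hp
    have hkp : k < p := by
      have h1 : k < 2 ^ k := Nat.lt_two_pow_self
      have h2 : 2 ^ (Nat.log 2 p) ≤ p := Nat.pow_log_le_self 2 hpp.ne_zero
      have h3 : k ≤ Nat.log 2 p := by
        have : k ≤ 4 * k * (k + 1) * (b + 1) := by nlinarith [Nat.zero_le (k * b), Nat.zero_le (k*k), Nat.zero_le (k * k * b)]
        omega
      have h4 : 2 ^ k ≤ 2 ^ (Nat.log 2 p) := Nat.pow_le_pow_right (by norm_num) h3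
      omega
    have hTp := Pool.Agent.H266R3.USS.dvd_of_split k p T hpp hsp hT hTk hkp
    exact hbn.of_dvd hTp
  set r := n % T with hr
  obtain ⟨j, hj, l, hne, hlt⟩ := hnz'
  have hrep : ∀ b ∈ B, b = r + T * (b / T) := by
    intro b hb
    have := Nat.mod_add_div b T
    rw [hmod b hb] at this
    omega
  have hinj : Set.InjOn (fun b => b / T) (B : Set ℕ) := by
    intro b hb b' hb' hbb
    have h1 := hrep b hb
    have h2 := hrep b' hb'
    simp only at hbb
    rw [h1, h2, hbb]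
  have hcard : k ≤ (B.image (fun b => b / T)).card := by
    rw [Finset.card_image_of_injOn hinj]; exact hB
  have hdiv := hI (fun a => v j (r + T * a)) p0 k hp0 hp3
    (fun i => Pool.Agent.H266R3.USS.diff_eq g q w p0 T r (v j) (hAnn j hj) hX i)
    (B.image (fun b => b / T)) hcard
    (by
      intro a ha
      obtain ⟨b, hb, rfl⟩ := Finset.mem_image.1 ha
      show v j (r + T * (b / T)) = 0
      rw [← hrep b hb]
      exact hzero b hb j hj) l
  have hle := Int.le_of_dvd (abs_pos.2 hne) ((dvd_abs _ _).2 hdiv)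
  have h3 : (3 : ℤ) ^ (k / 2) ≤ (p0 : ℤ) ^ (k - k / 2) := by
    calc (3 : ℤ) ^ (k / 2) ≤ (p0 : ℤ) ^ (k / 2) :=
          pow_le_pow_left₀ (by norm_num) (by exact_mod_cast hp3) _
      _ ≤ (p0 : ℤ) ^ (k - k / 2) :=
          pow_le_pow_right₀ (by exact_mod_cast (by omega : 1 ≤ p0)) (by omega)
  linarith

end Pool.Agent.H684R3.USS
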