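import Pool.Agent.H684R3.USS.Stmts2
import Pool.Agent.H684R3.USS.TaskO

set_option autoImplicit false

/-! Task O2: soundness of codes, second version. -/

namespace Pool.Agent.H684R3.USS

open Polynomial Finset Pool.Agent.H692R2.USS TO

theorem taskO2 : TaskO2 := by
  intro K2 Q2 p u k hu hc
  obtain ⟨⟨⟨G, s, t⟩, ⟨q, w⟩, rr, A, D, p0, T⟩, hc⟩ := hc
  simp only at hc
  obtain ⟨⟨hG1, hGk, hGc, hk1, hkk, hrr, hrrk⟩, hst, ⟨hAk, hA⟩, ⟨hD, hDu⟩,
    ⟨hp0, hp03, hT1, hTk, hqw⟩, hlast⟩ := hc
  have hkk' : k * k + 1 ≤ 2 ^ k := hkk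
  have hann : ∀ j < A.length, Ann (PG G) (fun n => iv (run G (A.getD j []) n)) := fun j hj =>
    run_ann (by rw [(hA j hj).1]; exact hG1) (hA j hj).1
  refine ⟨PG G, PL s, PL t, iv rr, A.length, D, p0, T, PL q, PL w,
    fun j n => iv (run G (A.getD j []) n), ⟨PG_monic G, ?_, ?_, ?_, ?_, ?_, hk1, hAk, hann, ?_,
      hp0, hp03, hT1, hTk, ?_⟩, hD, ?_, ?_⟩
  · rw [PG_natDegree]; exact hGk
  · intro i
    rw [PG_coeff]
    split_ifs with h1 h2
    · have := iv_zlt (hGc i h1)
      push_cast at this
      omega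
    · simp; omega
    · simp
  · refine poly_ext (N := s.length + t.length + G.length + 1) ?_ ?_ ?_
    · refine (natDegree_add_le _ _).trans_lt (max_lt ?_ ?_)
      · refine natDegree_mul_le.trans_lt ?_
        have := PL_natDegree s
        rw [PG_natDegree]
        omega
      · refine natDegree_mul_le.trans_lt ?_
        have := PL_natDegree t
        have h2 := natDegree_Xd (PG G)
        rw [PG_natDegree] at h2
        omega
    · rw [natDegree_C]; omega
    · intro x hx
      have := iv_zeq (hst x hx)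
      rw [iv_za, iv_zm, iv_zm] at this
      rw [eval_add, eval_mul, eval_mul, PL_eval, PL_eval, PG_eval, evd_eval, eval_C, this]
  · unfold iv
    intro h
    apply hrr
    omega
  · have := iv_zlt hrrk
    push_cast at this
    omega
  · intro j hj b
    exact bound hG1 hGk hGc hkk' (hA j hj).1 (hA j hj).2 b
  · refine poly_ext (N := T + G.length + q.length + w.length + 1) ?_ ?_ ?_
    · refine (natDegree_sub_le _ _).trans_lt (max_lt ?_ ?_)
      · rw [natDegree_X_pow]; omega
      · rw [natDegree_one]; omega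
    · refine (natDegree_add_le _ _).trans_lt (max_lt ?_ ?_)
      · refine natDegree_mul_le.trans_lt ?_
        have := PL_natDegree q
        rw [PG_natDegree]
        omega
      · refine (natDegree_C_mul_le _ _).trans_lt ?_
        have := PL_natDegree w
        omega
    · intro x hx
      have := iv_zeq (hqw x hx)
      rw [iv_za, iv_za, iv_zm, iv_zm] at this
      simp only [iv_nat] at this
      rw [eval_sub, eval_pow, eval_X, eval_one, eval_add, eval_mul, eval_mul, PL_eval, PL_eval,
        PG_eval, eval_C]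
      push_cast at this
      rw [this]
      ring
  · have h1 : 1 ≤ p.1.length := Pool.Agent.H884R2.Sko.getLast_iff' p.1 hu.2.1
    have h2 : Ann (PG (Pool.Agent.H884R2.Sko.Fq p.1)) u := by
      have := run_ann (G := Pool.Agent.H884R2.Sko.Fq p.1) (a := p.2) (by rw [← hu.1]; exact h1)
        (by rw [Pool.Agent.H884R2.Sko.Fq_length]; exact hu.1.symm)
      have e : (fun n => iv (run (Pool.Agent.H884R2.Sko.Fq p.1) p.2 n)) = u :=
        funext fun n => Pool.Agent.H884R2.Sko.isLRS_run' hu n
      rwa [e] at this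
    have h3 := K2 (PG G) A.length (fun j n => iv (run G (A.getD j []) n)) hann
    have h4 : Ann (PG (Pool.Agent.H884R2.Sko.Fq p.1) * (PG G) ^ A.length) ((D : ℤ) • u) :=
      (h2.smul _).mul_right _
    have h5 := h3.mul_left (PG (Pool.Agent.H884R2.Sko.Fq p.1))
    have hm : (PG (Pool.Agent.H884R2.Sko.Fq p.1) * (PG G) ^ A.length).Monic :=
      (PG_monic _).mul ((PG_monic G).pow _)
    intro n
    refine Ann.ext hm h4 h5 (fun n hn => ?_) n
    rw [(PG_monic _).natDegree_mul ((PG_monic G).pow _), (PG_monic G).natDegree_pow, PG_natDegree,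
      PG_natDegree, Pool.Agent.H884R2.Sko.Fq_length] at hn
    have := iv_zeq (hDu n hn)
    rw [iv_zm, iv_nat, Pool.Agent.H884R2.Sko.isLRS_run' hu, iv_zsum] at this
    rw [Pi.smul_apply, smul_eq_mul, this]
    refine Finset.sum_congr rfl fun j _ => ?_
    rw [iv_zm, iv_nat]
    push_cast
    ring
  · intro r hr
    rcases hlast r hr with h0 | ⟨y, hy1, hy2, hy3⟩
    · left
      have h1 : 1 ≤ p.1.length := Pool.Agent.H884R2.Sko.getLast_iff' p.1 hu.2.1
      have h2 : Ann (PG (Pool.Agent.H884R2.Sko.Fq p.1)) u := by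
        have := run_ann (G := Pool.Agent.H884R2.Sko.Fq p.1) (a := p.2) (by rw [← hu.1]; exact h1)
          (by rw [Pool.Agent.H884R2.Sko.Fq_length]; exact hu.1.symm)
        have e : (fun n => iv (run (Pool.Agent.H884R2.Sko.Fq p.1) p.2 n)) = u :=
          funext fun n => Pool.Agent.H884R2.Sko.isLRS_run' hu n
        rwa [e] at this
      refine Q2 _ u T r (PG_monic _) h2 fun l hl => ?_
      rw [PG_natDegree, Pool.Agent.H884R2.Sko.Fq_length] at hl
      have h3 := h0 l hl
      rw [← Pool.Agent.H884R2.Sko.isLRS_run' hu]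
      unfold iv
      omega
    right
    refine ⟨y.1, hy1, y.2, ?_, ?_⟩
    · intro h
      apply hy2
      simp only [iv] at h
      omega
    · have := iv_zlt hy3
      push_cast at this
      exact this

end Pool.Agent.H684R3.USS
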