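import Pool.Agent.H684R3.USS.Stmts2
import Pool.Agent.H684R3.USS.TaskP

set_option autoImplicit false

/-! # Task P2: completeness of codes, second version (adapted from helper74's Task P by helper924) -/

namespace Pool.Agent.H684R3.USS.P2

open Polynomial Finset Pool.Agent.H692R2.USS Pool.Agent.H684R3.USS Pool.Agent.H684R3.USS.P

theorem taskP2 : TaskP2 := by
  intro p u g s t rr m D p0 T q w v hu hg hd hst hrr hv hD hsum hp0 h3 hT hper hne
  set d := g.natDegree with hdd
  set A : List (List (ℕ × ℕ)) := (List.range m).map fun j => cl (v j) d with hA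
  have hAl : A.length = m := by rw [hA, List.length_map, List.length_range]
  have hAg : ∀ j < m, A.getD j [] = cl (v j) d := by
    intro j hj
    rw [hA, List.getD_eq_getElem?_getD, List.getElem?_map, List.getElem?_range hj]
    rfl
  have hrun : ∀ j < m, ∀ n, iv (run (cl g.coeff d) (A.getD j []) n) = v j n := by
    intro j hj n
    rw [hAg j hj]
    refine run_eq (by rw [cl_length]; exact hd) (by rw [cl_length, cl_length]) ?_ ?_ n
    · rw [hdd, PG_cl hg]
      exact hv j hj
    · intro i hi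
      rw [cl_length] at hi
      rw [iv_cl hi]
  have hne' : ∀ r ∈ Finset.range T, ∀ᶠ k : ℕ in Filter.atTop, (∀ l, u (r + T * l) = 0) ∨
      ∃ y : ℕ × ℕ, y.1 < m ∧
      v y.1 (r + T * y.2) ≠ 0 ∧ |v y.1 (r + T * y.2)| < ((3 ^ (k / 2) : ℕ) : ℤ) := by
    intro r hr
    rcases hne r (Finset.mem_range.1 hr) with h0 | ⟨j, hj, l, hl⟩
    · exact Filter.Eventually.of_forall fun k => Or.inl h0
    · filter_upwards [ev_three (v j (r + T * l))] with k hk
      exact Or.inr ⟨(j, l), hj, hl, hk⟩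
  have e1 : ∀ᶠ k : ℕ in Filter.atTop, ∀ i ∈ Finset.range d, |g.coeff i| < ((k + 1 : ℕ) : ℤ) :=
    (Filter.eventually_all_finset _).2 fun i _ => ev_lin _
  have e2 : ∀ᶠ k : ℕ in Filter.atTop, ∀ j ∈ Finset.range m, ∀ i ∈ Finset.range d,
      |v j i| < ((2 ^ k : ℕ) : ℤ) :=
    (Filter.eventually_all_finset _).2 fun j _ =>
      (Filter.eventually_all_finset _).2 fun i _ => ev_two _
  have e3 := (Filter.eventually_all_finset _).2 hne'
  obtain ⟨k, k1, k2, k3, k4, k5, k6, k7, k8, k9⟩ := (e1.and (e2.and (e3.and (ev_sq.and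
    ((Filter.eventually_ge_atTop d).and ((Filter.eventually_ge_atTop 1).and ((ev_lin rr).and
      ((Filter.eventually_ge_atTop m).and (Filter.eventually_ge_atTop T))))))))).exists
  refine ⟨k, ((cl g.coeff d, cl s.coeff (s.natDegree + 1), cl t.coeff (t.natDegree + 1)),
    (cl q.coeff (q.natDegree + 1), cl w.coeff (w.natDegree + 1)), zc rr, A, (D, p0, T)), ?_⟩
  unfold Chk2
  simp only
  refine ⟨⟨?_, ?_, ?_, k6, k4, ?_, ?_⟩, ?_, ⟨?_, ?_⟩, ⟨hD, ?_⟩, ⟨hp0, h3, hT, k9, ?_⟩, ?_⟩
  · rw [cl_length]; exact hd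
  · rw [cl_length]; exact k5
  · intro i hi
    rw [cl_length] at hi
    rw [zlt_iff, iv_cl hi]
    exact k1 i (Finset.mem_range.2 hi)
  · rw [zne_iff, iv_zc]; exact hrr
  · rw [zlt_iff, iv_zc]; exact k7
  · intro x _
    rw [zeq_iff, iv_za, iv_zm, iv_zm, iv_evL s (by omega), iv_evL t (by omega), hdd, iv_evG hg,
      iv_evd hg, iv_zc]
    have h := congrArg (fun f : ℤ[X] => f.eval (x : ℤ)) hst
    simp only [eval_add, eval_mul, eval_C] at h ⊢
    exact h
  · rw [hAl]; exact k8
  · intro j hj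
    rw [hAl] at hj
    rw [hAg j hj, cl_length, cl_length]
    refine ⟨rfl, fun i hi => ?_⟩
    rw [zlt_iff, iv_cl hi]
    exact k2 j (Finset.mem_range.2 hj) i (Finset.mem_range.2 hi)
  · intro n _
    rw [zeq_iff, iv_zm, iv_nat, iv_zsum, hAl, Pool.Agent.H884R2.Sko.isLRS_run' hu, hsum n]
    refine Finset.sum_congr rfl fun j hj => ?_
    rw [iv_zm, iv_nat, hrun j (Finset.mem_range.1 hj)]
    push_cast
    rfl
  · intro x _
    rw [zeq_iff, iv_za, iv_za, iv_zm, iv_zm, iv_evL q (by omega), iv_evL w (by omega), hdd,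
      iv_evG hg, iv_nat, iv_nat, iv_nat]
    have h := congrArg (fun f : ℤ[X] => f.eval (x : ℤ)) hper
    simp only [eval_add, eval_mul, eval_C, eval_sub, eval_pow, eval_X, eval_one] at h
    push_cast
    linarith
  · intro r hr
    rcases k3 r (Finset.mem_range.2 hr) with h0 | ⟨y, hy1, hy2, hy3⟩
    · left
      intro l _
      have h1 : iv (run (Pool.Agent.H884R2.Sko.Fq p.1) p.2 (r + T * l)) = 0 := by
        rw [Pool.Agent.H884R2.Sko.isLRS_run' hu, h0 l]
      unfold iv at h1
      omega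
    · right
      refine ⟨y, by rw [hAl]; exact hy1, ?_, ?_⟩
      · rw [zne_iff, hrun _ hy1]; exact hy2
      · rw [zlt_iff, hrun _ hy1]; exact hy3

end Pool.Agent.H684R3.USS.P2

namespace Pool.Agent.H684R3.USS

theorem taskP2 : TaskP2 := P2.taskP2

end Pool.Agent.H684R3.USS
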