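import Pool.Agent.H684R3.USS.Stmts2

set_option autoImplicit false

/-!
# USS-Q2: decimation of a recurrence sequence (helper780)
-/

namespace Pool.Agent.H684R3.USS

open Polynomial Finset Pool.Agent.H692R2.USS
open scoped Classical

/-- a monic polynomial `chi` of degree `natDegree f` with `f ∣ chi (X ^ T)`. -/
theorem exists_decim (f : ℤ[X]) (T : ℕ) (hf : f.Monic) :
    ∃ chi : ℤ[X], chi.Monic ∧ chi.natDegree = f.natDegree ∧ f ∣ chi.comp (X ^ T) := by
  set pb := AdjoinRoot.powerBasis' hf with hpb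
  set y : AdjoinRoot f := (AdjoinRoot.root f) ^ T with hy
  refine ⟨(Algebra.leftMulMatrix pb.basis y).charpoly, Matrix.charpoly_monic _, ?_, ?_⟩
  · rw [Matrix.charpoly_natDegree_eq_dim, Fintype.card_fin]
    simp [hpb]
  · have h1 : Polynomial.aeval y (Algebra.leftMulMatrix pb.basis y).charpoly = 0 := by
      apply Algebra.leftMulMatrix_injective pb.basis
      rw [← Polynomial.aeval_algHom_apply, Matrix.aeval_self_charpoly, map_zero]
    rw [← AdjoinRoot.mk_eq_zero, ← AdjoinRoot.aeval_eq, aeval_comp, map_pow, aeval_X]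
    exact h1

theorem taskQ2 : TaskQ2 := by
  intro f u T r hf hu h0
  obtain ⟨chi, hm, hd, hdvd⟩ := exists_decim f T hf
  have h1 : Ann (chi.comp (X ^ T)) u := hu.of_dvd hdvd
  have h2 : Ann chi (fun l => u (r + T * l)) := by
    rw [ann_iff (Nat.lt_succ_self _)]
    intro n
    have h3 : (Polynomial.aeval (E ℤ) (chi.comp (X ^ T)) u) (r + T * n) = 0 := by
      have : Polynomial.aeval (E ℤ) (chi.comp (X ^ T)) u = 0 := h1
      rw [this]; rfl
    rw [aeval_comp, map_pow, aeval_X, aeval_eq_sum_range, LinearMap.sum_apply,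
      Finset.sum_apply] at h3
    rw [← h3]
    refine Finset.sum_congr rfl fun i _ => ?_
    rw [← pow_mul]
    simp only [LinearMap.smul_apply, Pi.smul_apply, E_pow_apply, smul_eq_mul]
    congr 2
    ring
  intro l
  exact h2.eq_zero hm (by rw [hd]; exact h0) l

end Pool.Agent.H684R3.USS
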