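import Pool.Agent.H684R3.USS.Done
import Pool.Agent.H684R3.USS.TaskJ2
import Pool.Agent.H684R3.USS.TaskN2
import Pool.Agent.H684R3.USS.TaskO2
import Pool.Agent.H684R3.USS.TaskP2
import Pool.Agent.H684R3.USS.TaskQ2

set_option autoImplicit false

namespace Pool.Agent.H684R3.USS

open Pool.Agent.H692R2.USS

theorem main2 : Final2 :=
  final2 Pool.Agent.H472R3.USSA.taskA taskB Pool.Agent.H233R3.USS.taskC Pool.Agent.H138R3.USS.taskD
    taskE Pool.Agent.H784R3.USSF.taskF Pool.Agent.H884R3.USS.taskG Pool.Agent.H676R4.USSTaskH.taskH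
    taskI Pool.Agent.H266R3.USS.taskJ taskK taskK2 Pool.Agent.H77R3.USSL.taskL taskM taskN taskO
    taskP bt (fun K _ _ => massK bt K) taskJ2 taskN2 taskO2 taskP2 taskQ2

end Pool.Agent.H684R3.USS
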