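import Pool.Agent.H684R3.USS.Done2

set_option autoImplicit false

/-!
# Explicit sets of density one without isolated zeros of recurrence sequences
-/

namespace Pool.Agent.H684R3.USS

open Polynomial Finset Pool.Agent.H692R2.USS Pool.Agent.Helper446
open scoped Classical

/-- The explicit set `G_k`: there are at least `k` numbers `b`, each the residue class of `n` modulo
`p - 1` for a prime `p` which splits all polynomials of size `k`, with `log p` large compared with
`b` and `n` generic modulo `p`. -/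
def G (k : ℕ) : Set ℕ :=
  {n | ∃ B : Finset ℕ, k ≤ B.card ∧ ∀ b ∈ B, ∃ p : ℕ, GoodPair k p n b}

theorem mem_G_iff (k n : ℕ) : n ∈ G k ↔ ∃ i, Good i k n := by
  constructor
  · rintro ⟨B, hB, h⟩
    choose! p hp using h
    refine ⟨B.sup p, B, hB, fun b hb => ⟨p b, Finset.le_sup hb, hp b hb⟩⟩
  · rintro ⟨i, B, hB, h⟩
    refine ⟨B, hB, fun b hb => ?_⟩
    obtain ⟨p, _, hp⟩ := h b hb
    exact ⟨p, hp⟩

theorem goodDensity : GoodDensity :=
  taskE (fun k hk => Pool.Agent.H233R3.USS.taskC (taskB bt Pool.Agent.H472R3.USSA.taskA) k hk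
    (mass_of (fun K _ _ => massK bt K) k)) Pool.Agent.H138R3.USS.taskD

theorem G_density (k : ℕ) : Filter.Tendsto
    (fun N : ℕ => (((Finset.range N).filter (fun n => n ∈ G k)).card : ℝ) / N)
    Filter.atTop (nhds 1) := by
  rw [Metric.tendsto_atTop]
  intro ε hε
  obtain ⟨i, hi⟩ := goodDensity k (ε / 4) (by positivity)
  have hi' := hi i le_rfl
  set Q := i.factorial with hQ
  have hQ0 : 0 < Q := Nat.factorial_pos _
  obtain ⟨P, hP⟩ : ∃ P : ℕ → Prop, ∀ n, P n ↔ ¬ Good i k n := ⟨fun n => ¬ Good i k n, fun _ => Iff.rfl⟩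
  have hper := Pool.Agent.H884R3.USS.period_count P Q hQ0
    (fun n n' h => by rw [hP, hP]; exact not_congr (Pool.Agent.H884R3.USS.good_congr h))
  have hcQ : (Nat.count P Q : ℝ) ≤ ε / 4 * Q := by
    rw [Nat.count_eq_card_filter_range]
    have : (Finset.range Q).filter P = (Finset.range Q).filter (fun n => ¬ Good i k n) :=
      Finset.filter_congr (fun n _ => hP n)
    rw [this]; exact hi'
  refine ⟨max Q 1, fun N hN => ?_⟩
  have hNQ : Q ≤ N := le_trans (le_max_left _ _) hN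
  have hN1 : 1 ≤ N := le_trans (le_max_right _ _) hN
  have hNpos : (0 : ℝ) < N := by exact_mod_cast hN1
  have h1 : (Nat.count P N : ℝ) ≤ ε / 2 * N := by
    have h2 : (Nat.count P N : ℝ) ≤ ((N / Q + 1 : ℕ) : ℝ) * Nat.count P Q := by
      exact_mod_cast hper N
    have h3 : ((N / Q + 1 : ℕ) : ℝ) * Q ≤ 2 * N := by
      have h4 : (N / Q + 1) * Q ≤ 2 * N := by
        have := Nat.div_mul_le_self N Q
        nlinarith
      exact_mod_cast h4
    calc (Nat.count P N : ℝ) ≤ ((N / Q + 1 : ℕ) : ℝ) * Nat.count P Q := h2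
      _ ≤ ((N / Q + 1 : ℕ) : ℝ) * (ε / 4 * Q) := by gcongr
      _ = ε / 4 * (((N / Q + 1 : ℕ) : ℝ) * Q) := by ring
      _ ≤ ε / 4 * (2 * N) := by gcongr
      _ = ε / 2 * N := by ring
  have h5 : N ≤ ((Finset.range N).filter (fun n => n ∈ G k)).card + Nat.count P N := by
    rw [Nat.count_eq_card_filter_range]
    have h6 : Finset.range N ⊆ (Finset.range N).filter (fun n => n ∈ G k) ∪
        (Finset.range N).filter P := by
      intro n hn
      rw [Finset.mem_union, Finset.mem_filter, Finset.mem_filter]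
      by_cases h : Good i k n
      · exact Or.inl ⟨hn, (mem_G_iff k n).2 ⟨i, h⟩⟩
      · exact Or.inr ⟨hn, (hP n).2 h⟩
    calc N = (Finset.range N).card := (Finset.card_range N).symm
      _ ≤ _ := Finset.card_le_card h6
      _ ≤ _ := Finset.card_union_le _ _
  have h6 : (N : ℝ) ≤ (((Finset.range N).filter (fun n => n ∈ G k)).card : ℝ) + Nat.count P N := by
    exact_mod_cast h5
  have h7 : (((Finset.range N).filter (fun n => n ∈ G k)).card : ℝ) ≤ N := by
    have := Finset.card_filter_le (Finset.range N) (fun n => n ∈ G k)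
    rw [Finset.card_range] at this
    exact_mod_cast this
  rw [Real.dist_eq, abs_lt]
  constructor
  · have h8 : 1 - ε / 2 ≤ (((Finset.range N).filter (fun n => n ∈ G k)).card : ℝ) / N := by
      rw [le_div_iff₀ hNpos]
      nlinarith
    linarith
  · have h8 : (((Finset.range N).filter (fun n => n ∈ G k)).card : ℝ) / N ≤ 1 := by
      rw [div_le_one hNpos]; exact h7
    linarith

theorem exists_K : ∃ K : List (ℕ × ℕ) × List (ℕ × ℕ) → ℕ, Computable K ∧
    ∀ p u, IsLRS p u → ∀ k, K p ≤ k → ∀ n ∈ G k, u n = 0 →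
      ∃ T, 1 ≤ T ∧ ∀ l, u (n % T + T * l) = 0 := by
  have hre : REPred fun x : (List (ℕ × ℕ) × List (ℕ × ℕ)) × ℕ => ¬ Val x.1 ∨ CertC2 x.1 x.2 := by
    refine RE.or ?_ taskN2
    exact RE.comp (p := fun p : List (ℕ × ℕ) × List (ℕ × ℕ) => ¬ Val p) cnVal Computable.fst
  obtain ⟨A, hA, hdom, hs⟩ := RE.uniformize (r := fun p k => ¬ Val p ∨ CertC2 p k) hre
  have htot : ∀ p, (A p).Dom := by
    intro p
    rw [hdom]
    by_cases hv : Val p
    · obtain ⟨k, hk⟩ := exists_certC2 taskK Pool.Agent.H77R3.USSL.taskL taskM taskP2 p hv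
      exact ⟨k, Or.inr hk⟩
    · exact ⟨0, Or.inl hv⟩
  have hc : Computable fun p => (A p).get (htot p) :=
    Partrec.of_eq hA fun p => (Part.some_get (htot p)).symm
  refine ⟨fun p => (A p).get (htot p), hc, ?_⟩
  intro p u hu k hk n hn hun
  obtain ⟨i, hi⟩ := (mem_G_iff k n).1 hn
  rcases hs p _ (Part.get_mem (htot p)) with h1 | h1
  · exact absurd (val_of_isLRS hu) h1
  · exact taskJ2 Pool.Agent.H676R4.USSTaskH.taskH taskI _ _ _ n
      ((taskO2 taskK2 taskQ2 p u _ hu h1).mono hk) hi hun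

theorem exists_S : ∃ S : Set ℕ, ComputablePred (fun n : ℕ => n ∈ S) ∧
    Filter.Tendsto (fun N : ℕ => (((Finset.range N).filter (fun n => n ∈ S)).card : ℝ) / N)
      Filter.atTop (nhds 1) ∧
    (∀ k : ℕ, ∃ N : ℕ, ∀ n ∈ S, N ≤ n → ∃ k' ≥ k, n ∈ G k') ∧
    ComputablePred (fun p : List (ℕ × ℕ) × List (ℕ × ℕ) => ∃ u, IsLRS p u ∧ ∃ n ∈ S, u n = 0) := by
  obtain ⟨cN, cS⟩ := Pool.Agent.H784R3.USSF.taskF goodDensity
  refine ⟨S, cS, Pool.Agent.H884R3.USS.taskG goodDensity, fun k => ⟨NSeq k, fun n hn hk =>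
    ⟨lev n, le_lev hk, (mem_G_iff _ n).2 ⟨_, hn⟩⟩⟩,
    decS Pool.Agent.H884R3.USS.taskG Pool.Agent.H676R4.USSTaskH.taskH taskI
      Pool.Agent.H266R3.USS.taskJ taskK taskK2 Pool.Agent.H77R3.USSL.taskL taskM taskN taskO taskP
      goodDensity cN cS⟩

end Pool.Agent.H684R3.USS
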