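import Pool.Agent.H684R3.USS.Stmts

set_option autoImplicit false

/-!
# Universal Skolem set of density one: second part (computable bound for the zeros in `S` outside
full arithmetic progressions of zeros)
-/

namespace Pool.Agent.H684R3.USS

open Polynomial Finset Pool.Agent.H692R2.USS
open scoped Classical

/-- semantic certificate of level `k`, identically vanishing classes allowed -/
def CertN2 (u : ℕ → ℤ) (k : ℕ) : Prop :=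
  ∃ (g s t : ℤ[X]) (rr : ℤ) (m D p0 T : ℕ) (q w : ℤ[X]) (v : ℕ → ℕ → ℤ),
    Base g s t rr m p0 T q w v k ∧ 1 ≤ D ∧
    (∀ n : ℕ, (D : ℤ) * u n = ∑ j ∈ Finset.range m, (n : ℤ) ^ j * v j n) ∧
    ∀ r < T, (∀ l, u (r + T * l) = 0) ∨
      ∃ j < m, ∃ l, v j (r + T * l) ≠ 0 ∧ |v j (r + T * l)| < 3 ^ (k / 2)

/-- Task J2 -/
def TaskJ2 : Prop := TaskH → TaskI → ∀ (u : ℕ → ℤ) (k i n : ℕ), CertN2 u k → Good i k n → u n = 0 →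
  ∃ T, 1 ≤ T ∧ ∀ l, u (n % T + T * l) = 0

/-- Task Q2: decimation of a recurrence sequence. -/
def TaskQ2 : Prop := ∀ (f : ℤ[X]) (u : ℕ → ℤ) (T r : ℕ), f.Monic → Ann f u →
  (∀ l < f.natDegree, u (r + T * l) = 0) → ∀ l, u (r + T * l) = 0

/-- the check of a code at level `k` for the recurrence data `p`, second version -/
def Chk2 (p : List (ℕ × ℕ) × List (ℕ × ℕ)) (k : ℕ) (G s t q w : List (ℕ × ℕ)) (rr : ℕ × ℕ)
    (A : List (List (ℕ × ℕ))) (D p0 T : ℕ) : Prop :=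
  (1 ≤ G.length ∧ G.length ≤ k ∧ (∀ i < G.length, zlt (G.getD i (0, 0)) (k + 1)) ∧
    1 ≤ k ∧ k * k + 1 ≤ 2 ^ k ∧ rr.1 ≠ rr.2 ∧ zlt rr (k + 1)) ∧
  (∀ x < s.length + t.length + G.length + 1,
    zeq (za (zm (evL s x) (evG G x)) (zm (evL t x) (evd G x))) rr) ∧
  (A.length ≤ k ∧ ∀ j < A.length, (A.getD j []).length = G.length ∧
    ∀ i < G.length, zlt ((A.getD j []).getD i (0, 0)) (2 ^ k)) ∧
  (1 ≤ D ∧ ∀ n < p.1.length + A.length * G.length,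
    zeq (zm (D, 0) (run (Pool.Agent.H884R2.Sko.Fq p.1) p.2 n))
      (zsum (fun j => zm (n ^ j, 0) (run G (A.getD j []) n)) A.length)) ∧
  (p0.Prime ∧ 3 ≤ p0 ∧ 1 ≤ T ∧ T ≤ k ∧ ∀ x < T + G.length + q.length + w.length + 1,
    zeq (x ^ T, 0) (za (1, 0) (za (zm (evG G x) (evL q x)) (zm (p0, 0) (evL w x))))) ∧
  (∀ r < T, (∀ l < p.1.length, (run (Pool.Agent.H884R2.Sko.Fq p.1) p.2 (r + T * l)).1 =
      (run (Pool.Agent.H884R2.Sko.Fq p.1) p.2 (r + T * l)).2) ∨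
    ∃ y : ℕ × ℕ, y.1 < A.length ∧
    (run G (A.getD y.1 []) (r + T * y.2)).1 ≠ (run G (A.getD y.1 []) (r + T * y.2)).2 ∧
    zlt (run G (A.getD y.1 []) (r + T * y.2)) (3 ^ (k / 2)))

/-- existence of a code -/
def CertC2 (p : List (ℕ × ℕ) × List (ℕ × ℕ)) (k : ℕ) : Prop :=
  ∃ c : Cod, Chk2 p k c.1.1 c.1.2.1 c.1.2.2 c.2.1.1 c.2.1.2 c.2.2.1 c.2.2.2.1
    c.2.2.2.2.1 c.2.2.2.2.2.1 c.2.2.2.2.2.2

/-- Task N2 -/
def TaskN2 : Prop :=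
  REPred fun x : (List (ℕ × ℕ) × List (ℕ × ℕ)) × ℕ => CertC2 x.1 x.2

/-- Task O2 -/
def TaskO2 : Prop := TaskK2 → TaskQ2 → ∀ (p : List (ℕ × ℕ) × List (ℕ × ℕ)) (u : ℕ → ℤ) (k : ℕ),
  IsLRS p u → CertC2 p k → CertN2 u k

/-- Task P2 -/
def TaskP2 : Prop := ∀ (p : List (ℕ × ℕ) × List (ℕ × ℕ)) (u : ℕ → ℤ) (g s t : ℤ[X]) (rr : ℤ)
  (m D p0 T : ℕ) (q w : ℤ[X]) (v : ℕ → ℕ → ℤ), IsLRS p u → g.Monic → 1 ≤ g.natDegree →
  s * g + t * (X * derivative g) = C rr → rr ≠ 0 → (∀ j < m, Ann g (v j)) → 1 ≤ D →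
  (∀ n : ℕ, (D : ℤ) * u n = ∑ j ∈ Finset.range m, (n : ℤ) ^ j * v j n) →
  p0.Prime → 3 ≤ p0 → 1 ≤ T → X ^ T - 1 = g * q + C (p0 : ℤ) * w →
  (∀ r < T, (∀ l, u (r + T * l) = 0) ∨ ∃ j < m, ∃ l, v j (r + T * l) ≠ 0) → ∃ k, CertC2 p k

def Final2 : Prop := ∃ S : Set ℕ,
  ComputablePred (fun n : ℕ => n ∈ S) ∧
  Filter.Tendsto (fun N : ℕ => (((Finset.range N).filter (fun n => n ∈ S)).card : ℝ) / N)
    Filter.atTop (nhds 1) ∧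
  ComputablePred (fun p : List (ℕ × ℕ) × List (ℕ × ℕ) => ∃ u, IsLRS p u ∧ ∃ n ∈ S, u n = 0) ∧
  ∃ B : List (ℕ × ℕ) × List (ℕ × ℕ) → ℕ, Computable B ∧ ∀ p u, IsLRS p u → ∀ n ∈ S, B p ≤ n →
    u n = 0 → ∃ T, 1 ≤ T ∧ ∀ l, u (n % T + T * l) = 0

end Pool.Agent.H684R3.USS
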